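import Pool.Agent.Lib.UPN.GDefs
import Pool.Agent.Lib.UPN.GLoc
import Pool.Agent.Lib.F059.ACard

/-!
# The number of edges of a geometric triangulation (MP_2020ba_lc)

`euler_upper`: a triangulation of `P` with `h` hull points has at most `3 |P| - 3 - h` edges.
`euler_lower`: a triangulation of `P` whose hull is a triangle has at least `3 |P| - 6` edges.

The proof counts positively oriented empty triangles by their lexicographically middle vertex.
-/

set_option autoImplicit false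

namespace P2020ba

open F059 UPN

/-! ### Directions -/

theorem ll_trans {t : ℝ} (ht : t * t = 1) {p q r s : F059.Pt} (hq : AcLL t p q) (hr : AcLL t p r)
    (hs : AcLL t p s) (h1 : 0 < ori p q r) (h2 : 0 < ori p r s) : 0 < ori p q s := by
  have key : ori p q s * (t * (r.1 - p.1)) =
      ori p r s * (t * (q.1 - p.1)) + ori p q r * (t * (s.1 - p.1)) := by
    unfold ori; ring
  have hq1 := hq.fst
  have hr1 := hr.fst
  have hs1 := hs.fst
  rcases hq1.lt_or_eq with h3 | h3
  · have h4 : 0 < ori p r s * (t * (q.1 - p.1)) := mul_pos h2 h3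
    have h5 : 0 ≤ ori p q r * (t * (s.1 - p.1)) := mul_nonneg h1.le hs1
    by_contra hcon
    have h6 : ori p q s * (t * (r.1 - p.1)) ≤ 0 :=
      mul_nonpos_of_nonpos_of_nonneg (not_lt.1 hcon) hr1
    linarith
  · exfalso
    rcases hq with h4 | ⟨h4, h5⟩
    · linarith
    · have e : ori p q r = -((t * (q.2 - p.2)) * (t * (r.1 - p.1))) := by
        have : (t * (q.2 - p.2)) * (t * (r.1 - p.1)) = (t * t) * ((q.2 - p.2) * (r.1 - p.1)) := by
          ring
        rw [this, ht]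
        unfold ori
        rw [h4]
        ring
      rw [e] at h1
      have := mul_nonneg h5.le hr1
      linarith

theorem last_ll {P : Finset F059.Pt} (hP : GenPos P) {t : ℝ} (ht : t * t = 1) {p : F059.Pt}
    (hp : p ∈ P) {H : Finset F059.Pt} (hH : H ⊆ P) (hne : H.Nonempty)
    (hs : ∀ z ∈ H, AcLL t p z) : ∃ z ∈ H, ∀ z' ∈ H, z' ≠ z → 0 < ori p z' z := by
  classical
  refine GLocAux.exists_first (fun x y => 0 < ori p y x) H hne ?_ ?_
  · intro x hx y hy hxy
    have h0 := hP p hp x (hH hx) y (hH hy) (hs x hx).ne (hs y hy).ne hxy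
    have e1 : ori p y x = - ori p x y := ori_swap' p x y
    rcases lt_or_gt_of_ne h0 with h | h
    · left
      show 0 < ori p y x
      linarith
    · right
      exact h
  · intro x hx y hy z hz h1 h2
    exact ll_trans ht (hs z hz) (hs y hy) (hs x hx) h2 h1

/-- the two outer directions `b`, `c` on one side and `a` on the other side -/
theorem contra {t : ℝ} {p a b c : F059.Pt} (ha : AcLL t a p) (hb : AcLL t p b) (hc : AcLL t p c)
    (h : 0 < ori p c a) (h1 : ori p b c ≤ 0) (h2 : ori p b a ≤ 0) : False := by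
  have h2' : 0 ≤ ori p a b := by
    have : ori p a b = - ori p b a := ori_swap' p b a
    linarith
  have k1 : ori p c a * (t * (b.1 - p.1)) + ori p a b * (t * (c.1 - p.1)) +
      (-ori p b c) * (t * (p.1 - a.1)) = 0 := by
    unfold ori; ring
  have k2 : ori p c a * (t * (b.2 - p.2)) + ori p a b * (t * (c.2 - p.2)) +
      (-ori p b c) * (t * (p.2 - a.2)) = 0 := by
    unfold ori; ring
  have n1 := mul_nonneg h.le hb.fst
  have n2 := mul_nonneg h2' hc.fst
  have n3 := mul_nonneg (neg_nonneg.2 h1) ha.fst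
  have z1 : ori p c a * (t * (b.1 - p.1)) = 0 := by linarith
  have z2 : ori p a b * (t * (c.1 - p.1)) = 0 := by linarith
  have z3 : (-ori p b c) * (t * (p.1 - a.1)) = 0 := by linarith
  have p1 : 0 < ori p c a * (t * (b.2 - p.2)) := by
    rcases mul_eq_zero.1 z1 with h3 | h3
    · exact absurd h3 h.ne'
    · rcases hb with h4 | ⟨-, h4⟩
      · exact absurd h3 h4.ne'
      · exact mul_pos h h4
  have p2 : 0 ≤ ori p a b * (t * (c.2 - p.2)) := by
    rcases mul_eq_zero.1 z2 with h3 | h3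
    · rw [h3, zero_mul]
    · rcases hc with h4 | ⟨-, h4⟩
      · exact absurd h3 h4.ne'
      · exact mul_nonneg h2' h4.le
  have p3 : 0 ≤ (-ori p b c) * (t * (p.2 - a.2)) := by
    rcases mul_eq_zero.1 z3 with h3 | h3
    · rw [h3, zero_mul]
    · rcases ha with h4 | ⟨-, h4⟩
      · exact absurd h3 h4.ne'
      · exact mul_nonneg (neg_nonneg.2 h1) h4.le
  linarith

/-! ### The sets -/

open Classical in
/-- the points which have a successor on the hull -/
noncomputable def HV (P : Finset F059.Pt) : Finset F059.Pt :=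
  P.filter (fun p => ∃ b ∈ P, b ≠ p ∧ ∀ z ∈ P, ori p b z ≤ 0)

open Classical in
/-- the positively oriented empty triangles, each three times -/
noncomputable def CT (P : Finset F059.Pt) (A : Finset (Sym2 F059.Pt)) :
    Finset (F059.Pt × F059.Pt × F059.Pt) :=
  (P ×ˢ (P ×ˢ P)).filter (fun x => ET P A x.1 x.2.1 x.2.2 ∧ 0 < ori x.1 x.2.1 x.2.2)

/-- `b` is the lexicographically middle point of `a`, `b`, `c` -/
def Md (a b c : F059.Pt) : Prop := (Lx a b ∧ Lx b c) ∨ (Lx c b ∧ Lx b a)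

open Classical in
/-- the positively oriented empty triangles with the middle vertex in the middle -/
noncomputable def CM (P : Finset F059.Pt) (A : Finset (Sym2 F059.Pt)) :
    Finset (F059.Pt × F059.Pt × F059.Pt) :=
  (CT P A).filter (fun x => Md x.1 x.2.1 x.2.2)

open Classical in
/-- the directed edges -/
noncomputable def DE (P : Finset F059.Pt) (A : Finset (Sym2 F059.Pt)) :
    Finset (F059.Pt × F059.Pt) :=
  (P ×ˢ P).filter (fun x => s(x.1, x.2) ∈ A)

open Classical in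
/-- the directed edges with a point on the left -/
noncomputable def DL (P : Finset F059.Pt) (A : Finset (Sym2 F059.Pt)) :
    Finset (F059.Pt × F059.Pt) :=
  (DE P A).filter (fun x => ∃ z ∈ P, 0 < ori x.1 x.2 z)

open Classical in
/-- the directed edges with no point on the left -/
noncomputable def D0 (P : Finset F059.Pt) (A : Finset (Sym2 F059.Pt)) :
    Finset (F059.Pt × F059.Pt) :=
  (DE P A).filter (fun x => ¬ ∃ z ∈ P, 0 < ori x.1 x.2 z)

theorem mem_CT {P : Finset F059.Pt} {A : Finset (Sym2 F059.Pt)} {a b c : F059.Pt} :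
    (a, b, c) ∈ CT P A ↔ ET P A a b c ∧ 0 < ori a b c := by
  classical
  constructor
  · intro h
    exact (Finset.mem_filter.1 h).2
  · intro h
    exact Finset.mem_filter.2
      ⟨Finset.mem_product.2 ⟨h.1.ha, Finset.mem_product.2 ⟨h.1.hb, h.1.hc⟩⟩, h⟩

theorem CT_rot {P : Finset F059.Pt} {A : Finset (Sym2 F059.Pt)} {a b c : F059.Pt}
    (h : (a, b, c) ∈ CT P A) : (b, c, a) ∈ CT P A := by
  rw [mem_CT] at h ⊢
  exact ⟨h.1.rot, by rw [ori_cyc]; exact h.2⟩

theorem ET_ne {P : Finset F059.Pt} {A : Finset (Sym2 F059.Pt)} {a b c : F059.Pt}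
    (h : ET P A a b c) : a ≠ b ∧ b ≠ c ∧ a ≠ c := by
  refine ⟨?_, ?_, ?_⟩
  · rintro rfl
    exact h.em.1 (ori_self_same _ _)
  · rintro rfl
    exact h.em.1 (ori_self_right _ _)
  · rintro rfl
    exact h.em.1 (ori_self_left _ _)

theorem Lx_trans {p q r : F059.Pt} (h : Lx p q) (h' : Lx q r) : Lx p r := by
  rcases h with h | ⟨h1, h2⟩ <;> rcases h' with h' | ⟨h3, h4⟩
  · exact Or.inl (h.trans h')
  · exact Or.inl (h3 ▸ h)
  · exact Or.inl (h1 ▸ h')
  · exact Or.inr ⟨h1.trans h3, h2.trans h4⟩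

/-- exactly one of three points is the middle one -/
theorem Md_one {a b c : F059.Pt} (hab : a ≠ b) (hbc : b ≠ c) (hac : a ≠ c) :
    (Md a b c ∧ ¬ Md b c a ∧ ¬ Md c a b) ∨ (¬ Md a b c ∧ Md b c a ∧ ¬ Md c a b) ∨
      (¬ Md a b c ∧ ¬ Md b c a ∧ Md c a b) := by
  have irr : ∀ p q, Lx p q → ¬ Lx q p := fun p q h h' => acLx_asymm h h'
  have tr : ∀ p q r, Lx p q → Lx q r → Lx p r := fun p q r h h' => Lx_trans h h'
  unfold Md
  rcases acLx_total hab with h1 | h1 <;> rcases acLx_total hbc with h2 | h2 <;>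
    rcases acLx_total hac with h3 | h3 <;>
    have i1 := irr _ _ h1 <;> have i2 := irr _ _ h2 <;> have i3 := irr _ _ h3
  · left; tauto
  · exact absurd (tr _ _ _ h1 h2) i3
  · right; left; tauto
  · right; right; tauto
  · right; right; tauto
  · right; left; tauto
  · exact absurd (tr _ _ _ h2 h1) i3
  · left; tauto

theorem card_CT (P : Finset F059.Pt) (A : Finset (Sym2 F059.Pt)) :
    (CT P A).card = 3 * (CM P A).card := by
  classical
  have h1 : (CT P A).card = ((CT P A).filter (fun x => Md x.1 x.2.1 x.2.2)).card +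
      ((CT P A).filter (fun x => Md x.2.1 x.2.2 x.1)).card +
      ((CT P A).filter (fun x => Md x.2.2 x.1 x.2.1)).card := by
    rw [Finset.card_filter, Finset.card_filter, Finset.card_filter, ← Finset.sum_add_distrib,
      ← Finset.sum_add_distrib, Finset.card_eq_sum_ones]
    refine Finset.sum_congr rfl ?_
    rintro ⟨a, b, c⟩ hx
    obtain ⟨n1, n2, n3⟩ := ET_ne (mem_CT.1 hx).1
    rcases Md_one n1 n2 n3 with ⟨a1, a2, a3⟩ | ⟨a1, a2, a3⟩ | ⟨a1, a2, a3⟩ <;>
      simp [a1, a2, a3]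
  have h2 : ((CT P A).filter (fun x => Md x.2.1 x.2.2 x.1)).card = (CM P A).card := by
    refine Finset.card_bij (fun x _ => (x.2.1, x.2.2, x.1)) ?_ ?_ ?_
    · rintro ⟨a, b, c⟩ hx
      rw [Finset.mem_filter] at hx
      exact Finset.mem_filter.2 ⟨CT_rot hx.1, hx.2⟩
    · rintro ⟨a, b, c⟩ - ⟨a', b', c'⟩ - h
      simp only [Prod.mk.injEq] at h ⊢
      tauto
    · rintro ⟨a, b, c⟩ hx
      obtain ⟨hx1, hx2⟩ := Finset.mem_filter.1 hx
      exact ⟨(c, a, b), Finset.mem_filter.2 ⟨CT_rot (CT_rot hx1), hx2⟩, rfl⟩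
  have h3 : ((CT P A).filter (fun x => Md x.2.2 x.1 x.2.1)).card = (CM P A).card := by
    refine Finset.card_bij (fun x _ => (x.2.2, x.1, x.2.1)) ?_ ?_ ?_
    · rintro ⟨a, b, c⟩ hx
      rw [Finset.mem_filter] at hx
      exact Finset.mem_filter.2 ⟨CT_rot (CT_rot hx.1), hx.2⟩
    · rintro ⟨a, b, c⟩ - ⟨a', b', c'⟩ - h
      simp only [Prod.mk.injEq] at h ⊢
      tauto
    · rintro ⟨a, b, c⟩ hx
      obtain ⟨hx1, hx2⟩ := Finset.mem_filter.1 hx
      exact ⟨(b, c, a), Finset.mem_filter.2 ⟨CT_rot hx1, hx2⟩, rfl⟩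
  rw [h1, h2, h3]
  show (CM P A).card + (CM P A).card + (CM P A).card = _
  ring

theorem mem_DE {P : Finset F059.Pt} {A : Finset (Sym2 F059.Pt)} (hA : A ⊆ Seg P)
    {a b : F059.Pt} : (a, b) ∈ DE P A ↔ s(a, b) ∈ A := by
  unfold DE
  rw [Finset.mem_filter]
  constructor
  · exact fun h => h.2
  · intro h
    obtain ⟨h1, h2, -⟩ := mem_Seg.1 (hA h)
    exact ⟨Finset.mem_product.2 ⟨h1, h2⟩, h⟩

theorem card_DE {P : Finset F059.Pt} {A : Finset (Sym2 F059.Pt)} (hA : A ⊆ Seg P) :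
    (DE P A).card = 2 * A.card := by
  classical
  have h1 : ∀ x ∈ DE P A, s(x.1, x.2) ∈ A := by
    rintro ⟨a, b⟩ hx
    exact (mem_DE hA).1 hx
  rw [Finset.card_eq_sum_card_fiberwise h1]
  have h2 : ∀ e ∈ A, ((DE P A).filter (fun x => s(x.1, x.2) = e)).card = 2 := by
    intro e he
    induction e using Sym2.ind with
    | _ a b =>
      obtain ⟨-, -, hne⟩ := mem_Seg.1 (hA he)
      have h3 : (DE P A).filter (fun x => s(x.1, x.2) = s(a, b)) = {(a, b), (b, a)} := by
        ext ⟨c, d⟩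
        rw [Finset.mem_filter, mem_DE hA, Finset.mem_insert, Finset.mem_singleton, Sym2.eq_iff]
        simp only [Prod.mk.injEq]
        constructor
        · exact fun h => h.2
        · rintro (⟨rfl, rfl⟩ | ⟨rfl, rfl⟩)
          · exact ⟨he, by tauto⟩
          · exact ⟨by rw [Sym2.eq_swap]; exact he, by tauto⟩
      rw [h3, Finset.card_pair]
      intro h
      simp only [Prod.mk.injEq] at h
      exact hne h.1
  rw [Finset.sum_congr rfl h2, Finset.sum_const, smul_eq_mul, mul_comm]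

theorem card_split (P : Finset F059.Pt) (A : Finset (Sym2 F059.Pt)) :
    (DE P A).card = (DL P A).card + (D0 P A).card := by
  classical
  unfold DL D0
  rw [← Finset.card_union_of_disjoint]
  · congr 1
    ext x
    simp only [Finset.mem_union, Finset.mem_filter]
    constructor
    · intro h
      by_cases h1 : ∃ z ∈ P, 0 < ori x.1 x.2 z
      · exact Or.inl ⟨h, h1⟩
      · exact Or.inr ⟨h, h1⟩
    · rintro (h | h)
      · exact h.1
      · exact h.1
  · rw [Finset.disjoint_left]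
    intro x h1 h2
    exact (Finset.mem_filter.1 h2).2 (Finset.mem_filter.1 h1).2

theorem card_DL {P : Finset F059.Pt} (hP : GenPos P) {A : Finset (Sym2 F059.Pt)}
    (hA : Tri P A) : (CT P A).card = (DL P A).card := by
  classical
  refine Finset.card_bij (fun x _ => (x.1, x.2.1)) ?_ ?_ ?_
  · rintro ⟨a, b, c⟩ hx
    obtain ⟨h1, h2⟩ := mem_CT.1 hx
    exact Finset.mem_filter.2 ⟨(mem_DE hA.1).2 h1.ab, c, h1.hc, h2⟩
  · rintro ⟨a, b, c⟩ hx ⟨a', b', c'⟩ hy h
    simp only [Prod.mk.injEq] at h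
    obtain ⟨rfl, rfl⟩ := h
    obtain ⟨h1, h2⟩ := mem_CT.1 hx
    obtain ⟨h3, h4⟩ := mem_CT.1 hy
    rw [ET_unique hP hA h1 h3 (mul_pos h2 h4)]
  · rintro ⟨a, b⟩ hx
    obtain ⟨h1, z, hz, h2⟩ := Finset.mem_filter.1 hx
    obtain ⟨c, h3, h4⟩ := local_left hP hA ((mem_DE hA.1).1 h1) hz h2
    exact ⟨(a, b, c), mem_CT.2 ⟨h3, h4⟩, rfl⟩

theorem euler_id {P : Finset F059.Pt} (hP : GenPos P) {A : Finset (Sym2 F059.Pt)}
    (hA : Tri P A) : 2 * A.card = 3 * (CM P A).card + (D0 P A).card := by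
  rw [← card_DE hA.1, card_split, ← card_DL hP hA, card_CT]

theorem card_D0_le {P : Finset F059.Pt} (hP : GenPos P) {A : Finset (Sym2 F059.Pt)}
    (hA : Tri P A) : (D0 P A).card ≤ (HV P).card := by
  classical
  refine Finset.card_le_card_of_injOn (fun x => x.1) ?_ ?_
  · rintro ⟨a, b⟩ hx
    obtain ⟨h1, h2⟩ := Finset.mem_filter.1 (Finset.mem_coe.1 hx)
    obtain ⟨ha, hb, hne⟩ := mem_Seg.1 (hA.1 ((mem_DE hA.1).1 h1))
    push Not at h2
    exact Finset.mem_coe.2 (Finset.mem_filter.2 ⟨ha, b, hb, hne.symm, h2⟩)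
  · rintro ⟨a, b⟩ hx ⟨a', b'⟩ hy h
    simp only at h
    subst h
    obtain ⟨h1, h2⟩ := Finset.mem_filter.1 (Finset.mem_coe.1 hx)
    obtain ⟨h3, h4⟩ := Finset.mem_filter.1 (Finset.mem_coe.1 hy)
    obtain ⟨ha, hb, hne⟩ := mem_Seg.1 (hA.1 ((mem_DE hA.1).1 h1))
    obtain ⟨-, hb', hne'⟩ := mem_Seg.1 (hA.1 ((mem_DE hA.1).1 h3))
    by_contra hcon
    have hbb : b ≠ b' := fun h => hcon (by rw [h])
    push Not at h2 h4
    have e1 := h2 b' hb'
    have e2 := h4 b hb
    have e3 : ori a b' b = - ori a b b' := ori_swap' a b b'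
    simp only at e1 e2
    have e4 := hP a ha b hb b' hb' hne hne' hbb
    apply e4
    linarith

/-! ### The upper bound -/

/-- the middle vertex and the side -/
noncomputable def fm (x : F059.Pt × F059.Pt × F059.Pt) : F059.Pt × Bool :=
  (x.2.1, @decide (Lx x.1 x.2.1) (Classical.propDecidable _))

theorem fm_inj {P : Finset F059.Pt} (hP : GenPos P) {A : Finset (Sym2 F059.Pt)}
    (hA : Tri P A) : Set.InjOn fm (CM P A : Set (F059.Pt × F059.Pt × F059.Pt)) := by
  classical
  rintro ⟨a, p, c⟩ hx ⟨a', p', c'⟩ hy h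
  obtain ⟨hx1, hx2⟩ := Finset.mem_filter.1 (Finset.mem_coe.1 hx)
  obtain ⟨hy1, hy2⟩ := Finset.mem_filter.1 (Finset.mem_coe.1 hy)
  obtain ⟨e1, o1⟩ := mem_CT.1 hx1
  obtain ⟨e2, o2⟩ := mem_CT.1 hy1
  unfold fm at h
  simp only [Prod.mk.injEq] at h
  obtain ⟨rfl, h⟩ := h
  have h' : Lx a p ↔ Lx a' p := by
    by_cases h1 : Lx a p <;> by_cases h2 : Lx a' p <;> simp [h1, h2] at h ⊢
  have f1 : ori a c p = - ori a p c := ori_swap' a p c
  have f2 : ori a' c' p = - ori a' p c' := ori_swap' a' p c'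
  have f3 : ori c a p = ori a p c := by unfold ori; ring
  have f4 : ori c' a' p = ori a' p c' := by unfold ori; ring
  simp only [Md] at hx2 hy2
  by_cases hl : Lx a p
  · have hl' := h'.1 hl
    have r1 : Lx p c := by
      rcases hx2 with h1 | h1
      · exact h1.2
      · exact (acLx_asymm hl h1.2).elim
    have r2 : Lx p c' := by
      rcases hy2 with h1 | h1
      · exact h1.2
      · exact (acLx_asymm hl' h1.2).elim
    obtain ⟨rfl, rfl⟩ := mid hP hA.1 hA.2.1 e1 e2 hl r1 hl' r2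
      (by rw [f1, f2]; exact mul_pos_of_neg_of_neg (by linarith) (by linarith))
    rfl
  · have hl' : ¬ Lx a' p := fun h1 => hl (h'.2 h1)
    have r1 : Lx c p ∧ Lx p a := by
      rcases hx2 with h1 | h1
      · exact (hl h1.1).elim
      · exact h1
    have r2 : Lx c' p ∧ Lx p a' := by
      rcases hy2 with h1 | h1
      · exact (hl' h1.1).elim
      · exact h1
    obtain ⟨rfl, rfl⟩ := mid hP hA.1 hA.2.1 e1.ac_rev e2.ac_rev r1.1 r1.2 r2.1 r2.2
      (by rw [f3, f4]; exact mul_pos o1 o2)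
    rfl

theorem exists_min_Lx (P : Finset F059.Pt) (h : P.Nonempty) : ∃ m ∈ P, ∀ z ∈ P, ¬ Lx z m := by
  obtain ⟨m, hm, h1⟩ := exists_lx_min P h
  refine ⟨m, hm, fun z hz hzm => ?_⟩
  by_cases hne : z = m
  · subst hne
    exact acLx_irrefl hzm
  · exact acLx_asymm (h1 z hz hne) hzm

theorem exists_max_Lx (P : Finset F059.Pt) (h : P.Nonempty) : ∃ m ∈ P, ∀ z ∈ P, ¬ Lx m z := by
  classical
  obtain ⟨m, hm, h1⟩ := GLocAux.exists_first (fun x y => Lx y x) P h
    (fun x _ y _ hxy => (acLx_total hxy).symm) (fun x _ y _ z _ h1 h2 => Lx_trans h2 h1)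
  refine ⟨m, hm, fun z hz hzm => ?_⟩
  by_cases hne : z = m
  · subst hne
    exact acLx_irrefl hzm
  · exact acLx_asymm (h1 z hz hne) hzm

theorem card_CM_le {P : Finset F059.Pt} (hP : GenPos P) {A : Finset (Sym2 F059.Pt)}
    (hA : Tri P A) (h2 : 2 ≤ P.card) : (CM P A).card + (HV P).card + 2 ≤ 2 * P.card := by
  classical
  have hne : P.Nonempty := Finset.card_pos.1 (by omega)
  obtain ⟨m, hm, hmin⟩ := exists_min_Lx P hne
  obtain ⟨M, hM, hmax⟩ := exists_max_Lx P hne
  have hmM : m ≠ M := by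
    rintro rfl
    obtain ⟨z, hz, hzm⟩ := Finset.exists_mem_ne (by omega : 1 < P.card) m
    rcases acLx_total hzm with h | h
    · exact hmin z hz h
    · exact hmax z hz h
  have hb : ∀ p ∈ HV P, ∃ b ∈ P, b ≠ p ∧ ∀ z ∈ P, ori p b z ≤ 0 := fun p hp =>
    (Finset.mem_filter.1 hp).2
  choose! b hbP hbne hbz using hb
  have hHV : HV P ⊆ P := Finset.filter_subset _ _
  set g : F059.Pt → F059.Pt × Bool := fun p => (p, decide (Lx p (b p))) with hg
  set X : Finset (F059.Pt × Bool) := (CM P A).image fm with hX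
  set Y : Finset (F059.Pt × Bool) := ({m, M} : Finset F059.Pt) ×ˢ (Finset.univ : Finset Bool)
    with hY
  set Z : Finset (F059.Pt × Bool) := ((HV P).filter (fun p => p ≠ m ∧ p ≠ M)).image g with hZ
  have cX : X.card = (CM P A).card := Finset.card_image_of_injOn (fm_inj hP hA)
  have cY : Y.card = 4 := by
    rw [hY, Finset.card_product, Finset.card_pair hmM]
    rfl
  have cZ : (HV P).card ≤ Z.card + 2 := by
    have h3 : Z.card = ((HV P).filter (fun p => p ≠ m ∧ p ≠ M)).card := by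
      refine Finset.card_image_of_injective _ ?_
      intro p q hpq
      simp only [hg, Prod.mk.injEq] at hpq
      exact hpq.1
    rw [h3]
    have h4 : HV P ⊆ ((HV P).filter (fun p => p ≠ m ∧ p ≠ M)) ∪ {m, M} := by
      intro p hp
      rw [Finset.mem_union, Finset.mem_filter, Finset.mem_insert, Finset.mem_singleton]
      tauto
    refine (Finset.card_le_card h4).trans ((Finset.card_union_le _ _).trans ?_)
    rw [Finset.card_pair hmM]
  have memX : ∀ x ∈ CM P A, x.2.1 ∈ P ∧ x.2.1 ≠ m ∧ x.2.1 ≠ M := by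
    rintro ⟨a, p, c⟩ hx
    obtain ⟨hx1, hx2⟩ := Finset.mem_filter.1 hx
    obtain ⟨e1, -⟩ := mem_CT.1 hx1
    refine ⟨e1.hb, ?_, ?_⟩
    · rintro rfl
      rcases hx2 with h1 | h1
      · exact hmin _ e1.ha h1.1
      · exact hmin _ e1.hc h1.1
    · rintro rfl
      rcases hx2 with h1 | h1
      · exact hmax _ e1.hc h1.2
      · exact hmax _ e1.ha h1.2
  have dXY : Disjoint X Y := by
    rw [Finset.disjoint_left]
    rintro ⟨p, β⟩ h1 h3
    obtain ⟨x, hx, hxe⟩ := Finset.mem_image.1 h1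
    have h4 := (memX x hx).2
    have h5 : x.2.1 = p := congrArg Prod.fst hxe
    rw [h5] at h4
    rw [hY, Finset.mem_product, Finset.mem_insert, Finset.mem_singleton] at h3
    rcases h3.1 with h6 | h6
    · exact h4.1 h6
    · exact h4.2 h6
  have dYZ : Disjoint Y Z := by
    rw [Finset.disjoint_left]
    rintro ⟨p, β⟩ h1 h3
    obtain ⟨q, hq, hqe⟩ := Finset.mem_image.1 h3
    have h4 := (Finset.mem_filter.1 hq).2
    have h5 : q = p := congrArg Prod.fst hqe
    rw [h5] at h4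
    rw [hY, Finset.mem_product, Finset.mem_insert, Finset.mem_singleton] at h1
    rcases h1.1 with h6 | h6
    · exact h4.1 h6
    · exact h4.2 h6
  have dXZ : Disjoint X Z := by
    rw [Finset.disjoint_left]
    rintro ⟨p, β⟩ h1 h3
    obtain ⟨⟨a, p', c⟩, hx, hxe⟩ := Finset.mem_image.1 h1
    obtain ⟨q, hq, hqe⟩ := Finset.mem_image.1 h3
    obtain ⟨hq1, -⟩ := Finset.mem_filter.1 hq
    unfold fm at hxe
    simp only [hg, Prod.mk.injEq] at hxe hqe
    obtain ⟨rfl, hxe⟩ := hxe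
    obtain ⟨rfl, hqe⟩ := hqe
    obtain ⟨hx1, hx2⟩ := Finset.mem_filter.1 hx
    obtain ⟨e1, o1⟩ := mem_CT.1 hx1
    have hb1 := hbP q hq1
    have hb2 := hbne q hq1
    have hb3 := hbz q hq1
    have h' : Lx a q ↔ Lx q (b q) := by
      rw [← hqe] at hxe
      by_cases h1 : Lx a q <;> by_cases h2 : Lx q (b q) <;> simp [h1, h2] at hxe ⊢
    have o2 : 0 < ori q c a := by rw [ori_cyc]; exact o1
    simp only [Md] at hx2
    by_cases hl : Lx a q
    · have r1 : Lx q c := by
        rcases hx2 with h1 | h1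
        · exact h1.2
        · exact (acLx_asymm hl h1.2).elim
      exact contra (acLL_one hl) (acLL_one (h'.1 hl)) (acLL_one r1) o2 (hb3 c e1.hc)
        (hb3 a e1.ha)
    · have r1 : Lx c q ∧ Lx q a := by
        rcases hx2 with h1 | h1
        · exact (hl h1.1).elim
        · exact h1
      have r2 : Lx (b q) q := by
        rcases acLx_total hb2 with h1 | h1
        · exact h1
        · exact absurd (h'.2 h1) hl
      exact contra (acLL_neg r1.2) (acLL_neg r2) (acLL_neg r1.1) o2 (hb3 c e1.hc)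
        (hb3 a e1.ha)
  have hsub : (X ∪ Y) ∪ Z ⊆ P ×ˢ (Finset.univ : Finset Bool) := by
    rintro ⟨p, β⟩ h1
    rw [Finset.mem_product]
    refine ⟨?_, Finset.mem_univ _⟩
    rw [Finset.mem_union, Finset.mem_union] at h1
    rcases h1 with (h1 | h1) | h1
    · obtain ⟨x, hx, hxe⟩ := Finset.mem_image.1 h1
      have h5 : x.2.1 = p := congrArg Prod.fst hxe
      rw [← h5]
      exact (memX x hx).1
    · rw [hY, Finset.mem_product, Finset.mem_insert, Finset.mem_singleton] at h1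
      rcases h1.1 with h6 | h6
      · simp only at h6 ⊢; rw [h6]; exact hm
      · simp only at h6 ⊢; rw [h6]; exact hM
    · obtain ⟨q, hq, hqe⟩ := Finset.mem_image.1 h1
      have h5 : q = p := congrArg Prod.fst hqe
      rw [← h5]
      exact hHV (Finset.mem_filter.1 hq).1
  have hc := Finset.card_le_card hsub
  rw [Finset.card_union_of_disjoint (Finset.disjoint_union_left.2 ⟨dXZ, dYZ⟩),
    Finset.card_union_of_disjoint dXY, cX, cY, Finset.card_product] at hc
  have : (Finset.univ : Finset Bool).card = 2 := rfl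
  rw [this] at hc
  omega

/-- **Upper bound.** -/
theorem euler_upper {P : Finset F059.Pt} (hP : GenPos P) {A : Finset (Sym2 F059.Pt)}
    (hA : Tri P A) (h2 : 2 ≤ P.card) : A.card + (HV P).card + 3 ≤ 3 * P.card := by
  have h3 := euler_id hP hA
  have h4 := card_D0_le hP hA
  have h5 := card_CM_le hP hA h2
  omega

/-! ### The lower bound -/

theorem ll_total {t : ℝ} (ht : t = 1 ∨ t = -1) {p q : F059.Pt} (h : p ≠ q) :
    AcLL t p q ∨ AcLL (-t) p q := by
  rcases ht with rfl | rfl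
  · rcases acLx_total h with h1 | h1
    · exact Or.inl (acLL_one h1)
    · exact Or.inr (acLL_neg h1)
  · rcases acLx_total h with h1 | h1
    · right
      rw [neg_neg]
      exact acLL_one h1
    · exact Or.inl (acLL_neg h1)

theorem step_side {P : Finset F059.Pt} (hP : GenPos P) {A : Finset (Sym2 F059.Pt)}
    (hA : Tri P A) {p : F059.Pt} (hp : p ∈ P) (hH : p ∉ HV P) {t : ℝ} (ht : t = 1 ∨ t = -1)
    {w : F059.Pt} (hw : s(p, w) ∈ A) (hwt : AcLL t p w) :
    ∃ z c, ET P A p z c ∧ 0 < ori p z c ∧ AcLL t p z ∧ AcLL (-t) p c := by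
  classical
  have htt : t * t = 1 := by rcases ht with rfl | rfl <;> norm_num
  obtain ⟨z, hz, hlast⟩ := last_ll hP htt hp (H := P.filter (fun z => s(p, z) ∈ A ∧ AcLL t p z))
    (Finset.filter_subset _ _)
    ⟨w, Finset.mem_filter.2 ⟨(mem_Seg.1 (hA.1 hw)).2.1, hw, hwt⟩⟩
    (fun z hz => (Finset.mem_filter.1 hz).2.2)
  obtain ⟨hzP, hzA, hzt⟩ := Finset.mem_filter.1 hz
  obtain ⟨y, hyP, hy⟩ : ∃ y ∈ P, 0 < ori p z y := by
    by_contra hcon
    push Not at hcon
    exact hH (Finset.mem_filter.2 ⟨hp, z, hzP, (hzt.ne).symm, hcon⟩)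
  obtain ⟨c, hc, hcl⟩ := local_left hP hA hzA hyP hy
  refine ⟨z, c, hc, hcl, hzt, ?_⟩
  obtain ⟨-, hzc, hpc⟩ := ET_ne hc
  rcases ll_total ht hpc with h1 | h1
  · exfalso
    have h2 := hlast c (Finset.mem_filter.2 ⟨hc.hc, by rw [Sym2.eq_swap]; exact hc.ca, h1⟩)
      hzc.symm
    have h3 : ori p c z = - ori p z c := ori_swap' p z c
    linarith
  · exact h1

theorem Lx_of_LL_one {p q : F059.Pt} (h : AcLL 1 p q) : Lx p q := by
  rcases h with h | ⟨h1, h2⟩
  · left; linarith
  · right; exact ⟨h1, by linarith⟩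

theorem Lx_of_LL_neg {p q : F059.Pt} (h : AcLL (-1) p q) : Lx q p := by
  rcases h with h | ⟨h1, h2⟩
  · left; linarith
  · right; exact ⟨h1.symm, by linarith⟩

theorem hit {P : Finset F059.Pt} (hP : GenPos P) {A : Finset (Sym2 F059.Pt)}
    (hA : Tri P A) (h2 : 2 ≤ P.card) {p : F059.Pt} (hp : p ∈ P) (hH : p ∉ HV P) (β : Bool) :
    ∃ x ∈ CM P A, fm x = (p, β) := by
  classical
  -- neighbours on both sides
  obtain ⟨q, hq, hqp⟩ := Finset.exists_mem_ne (by omega : 1 < P.card) p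
  obtain ⟨w, hw⟩ := exists_edge hP hA hp hq hqp
  have hpw := (mem_Seg.1 (hA.1 hw)).2.2
  have hboth : ∀ t : ℝ, t = 1 ∨ t = -1 → ∃ w, s(p, w) ∈ A ∧ AcLL t p w := by
    intro t ht
    rcases ll_total ht hpw with h1 | h1
    · exact ⟨w, hw, h1⟩
    · have ht' : -t = 1 ∨ -t = -1 := by rcases ht with rfl | rfl <;> simp
      obtain ⟨z, c, e1, -, -, e4⟩ := step_side hP hA hp hH ht' hw h1
      rw [neg_neg] at e4
      exact ⟨c, by rw [Sym2.eq_swap]; exact e1.ca, e4⟩
  cases β with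
  | true =>
    obtain ⟨w, hw, hwt⟩ := hboth 1 (Or.inl rfl)
    obtain ⟨z, c, e1, e2, e3, e4⟩ := step_side hP hA hp hH (Or.inl rfl) hw hwt
    have l1 := Lx_of_LL_one e3
    have l2 := Lx_of_LL_neg e4
    refine ⟨(c, p, z), ?_, ?_⟩
    · exact Finset.mem_filter.2 ⟨CT_rot (CT_rot (mem_CT.2 ⟨e1, e2⟩)), Or.inl ⟨l2, l1⟩⟩
    · unfold fm
      simp [l2]
  | false =>
    obtain ⟨w, hw, hwt⟩ := hboth (-1) (Or.inr rfl)
    obtain ⟨z, c, e1, e2, e3, e4⟩ := step_side hP hA hp hH (Or.inr rfl) hw hwt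
    rw [neg_neg] at e4
    have l1 := Lx_of_LL_neg e3
    have l2 := Lx_of_LL_one e4
    refine ⟨(c, p, z), ?_, ?_⟩
    · exact Finset.mem_filter.2 ⟨CT_rot (CT_rot (mem_CT.2 ⟨e1, e2⟩)), Or.inr ⟨l1, l2⟩⟩
    · unfold fm
      have : ¬ Lx c p := fun h => acLx_asymm l2 h
      simp [this]

theorem card_CM_ge {P : Finset F059.Pt} (hP : GenPos P) {A : Finset (Sym2 F059.Pt)}
    (hA : Tri P A) (h2 : 2 ≤ P.card) : 2 * (P.card - (HV P).card) ≤ (CM P A).card := by
  classical
  have h3 : ((P \ HV P) ×ˢ (Finset.univ : Finset Bool)) ⊆ (CM P A).image fm := by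
    rintro ⟨p, β⟩ h
    rw [Finset.mem_product, Finset.mem_sdiff] at h
    obtain ⟨x, hx, hxe⟩ := hit hP hA h2 h.1.1 h.1.2 β
    exact Finset.mem_image.2 ⟨x, hx, hxe⟩
  have h4 := Finset.card_le_card h3
  have hsub : HV P ⊆ P := Finset.filter_subset _ _
  rw [Finset.card_product, Finset.card_sdiff_of_subset hsub] at h4
  have h5 : (Finset.univ : Finset Bool).card = 2 := rfl
  rw [h5] at h4
  have h6 := Finset.card_image_le (s := CM P A) (f := fm)
  omega

theorem cfg_side {P : Finset F059.Pt} {A : Finset (Sym2 F059.Pt)} (hA : Tri P A)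
    {a b : F059.Pt} (ha : a ∈ P) (hb : b ∈ P) (hab : a ≠ b) (h : ∀ z ∈ P, 0 ≤ ori a b z) :
    s(a, b) ∈ A := by
  refine hA.2.2 _ (mem_Seg.2 ⟨ha, hb, hab⟩) ?_
  intro f hf hcr
  induction f using Sym2.ind with
  | _ u v =>
    obtain ⟨hu, hv, -⟩ := mem_Seg.1 (hA.1 hf)
    have h1 := (SCr_mk.1 hcr).1
    have h2 := mul_nonneg (h u hu) (h v hv)
    linarith

theorem InT_left {x y z p : F059.Pt} (h : 0 < ori x y z) (hp : InT x y z p) :
    0 ≤ ori x y p ∧ 0 ≤ ori y z p ∧ 0 ≤ ori z x p := by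
  rcases hp with h1 | ⟨h1, h2, h3⟩
  · exact h1
  · have := bary_sum x y z p
    linarith

/-- **Lower bound.** -/
theorem euler_lower {P : Finset F059.Pt} {A : Finset (Sym2 F059.Pt)} {o1 o2 o3 : F059.Pt}
    (hC : Cfg P A o1 o2 o3) : 3 * P.card ≤ A.card + 6 := by
  classical
  have hP := hC.gp
  have hA := hC.tri
  have hc4 := hC.card
  have hpos := hC.pos
  have o12 : o1 ≠ o2 := by
    rintro rfl; rw [ori_self_same] at hpos; exact lt_irrefl _ hpos
  have o13 : o1 ≠ o3 := by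
    rintro rfl; rw [ori_self_left] at hpos; exact lt_irrefl _ hpos
  have o23 : o2 ≠ o3 := by
    rintro rfl; rw [ori_self_right] at hpos; exact lt_irrefl _ hpos
  have hin : ∀ z ∈ P, 0 ≤ ori o1 o2 z ∧ 0 ≤ ori o2 o3 z ∧ 0 ≤ ori o3 o1 z := fun z hz =>
    InT_left hpos (hC.inT z hz)
  -- the hull points
  have hH : HV P ⊆ {o1, o2, o3} := by
    intro p hp
    obtain ⟨hpP, b, hbP, hbp, hb⟩ := Finset.mem_filter.1 hp
    by_contra hcon
    rw [Finset.mem_insert, Finset.mem_insert, Finset.mem_singleton] at hcon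
    push Not at hcon
    obtain ⟨n1, n2, n3⟩ := hcon
    obtain ⟨i1, i2, i3⟩ := hin p hpP
    have s1 : 0 < ori o1 o2 p := lt_of_le_of_ne i1
      (hP o1 hC.m1 o2 hC.m2 p hpP o12 n1.symm n2.symm).symm
    have s2 : 0 < ori o2 o3 p := lt_of_le_of_ne i2
      (hP o2 hC.m2 o3 hC.m3 p hpP o23 n2.symm n3.symm).symm
    have s3 : 0 < ori o3 o1 p := lt_of_le_of_ne i3
      (hP o3 hC.m3 o1 hC.m1 p hpP o13.symm n3.symm n1.symm).symm
    have hb1 := bary o1 o2 o3 p b p
    rw [ori_self_left, mul_zero] at hb1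
    have t1 := mul_nonpos_of_nonneg_of_nonpos s2.le (hb o1 hC.m1)
    have t2 := mul_nonpos_of_nonneg_of_nonpos s3.le (hb o2 hC.m2)
    have t3 := mul_nonpos_of_nonneg_of_nonpos s1.le (hb o3 hC.m3)
    have u1 : ori o2 o3 p * ori p b o1 = 0 := by linarith
    have u2 : ori o3 o1 p * ori p b o2 = 0 := by linarith
    have v1 : ori p b o1 = 0 := (mul_eq_zero.1 u1).resolve_left s2.ne'
    have v2 : ori p b o2 = 0 := (mul_eq_zero.1 u2).resolve_left s3.ne'
    have w1 : b = o1 := by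
      by_contra hne
      exact hP p hpP b hbP o1 hC.m1 hbp.symm n1 hne v1
    have w2 : b = o2 := by
      by_contra hne
      exact hP p hpP b hbP o2 hC.m2 hbp.symm n2 hne v2
    exact o12 (w1.symm.trans w2)
  have hH3 : (HV P).card ≤ 3 := (Finset.card_le_card hH).trans Finset.card_le_three
  have hD : ({(o2, o1), (o3, o2), (o1, o3)} : Finset (F059.Pt × F059.Pt)) ⊆ D0 P A := by
    have key : ∀ a b : F059.Pt, a ∈ P → b ∈ P → a ≠ b → (∀ z ∈ P, 0 ≤ ori a b z) →
        (b, a) ∈ D0 P A := by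
      intro a b ha hb hab h
      refine Finset.mem_filter.2 ⟨(mem_DE hA.1).2 ?_, ?_⟩
      · rw [Sym2.eq_swap]
        exact cfg_side hA ha hb hab h
      · rintro ⟨z, hz, h1⟩
        have h2 := h z hz
        have h3 : ori b a z = - ori a b z := F059.ori_swap a b z
        simp only at h1
        linarith
    intro x hx
    rw [Finset.mem_insert, Finset.mem_insert, Finset.mem_singleton] at hx
    rcases hx with rfl | rfl | rfl
    · exact key o1 o2 hC.m1 hC.m2 o12 (fun z hz => (hin z hz).1)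
    · exact key o2 o3 hC.m2 hC.m3 o23 (fun z hz => (hin z hz).2.1)
    · exact key o3 o1 hC.m3 hC.m1 o13.symm (fun z hz => (hin z hz).2.2)
  have hD3 : 3 ≤ (D0 P A).card := by
    refine le_trans (le_of_eq ?_) (Finset.card_le_card hD)
    symm
    rw [Finset.card_insert_of_notMem, Finset.card_insert_of_notMem, Finset.card_singleton]
    · rw [Finset.mem_singleton]
      intro h
      exact o13 (congrArg Prod.fst h).symm
    · rw [Finset.mem_insert, Finset.mem_singleton]
      rintro (h | h)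
      · exact o23 (congrArg Prod.fst h)
      · exact o12 (congrArg Prod.fst h).symm
  have h3 := euler_id hP hA
  have h4 := card_D0_le hP hA
  have h5 := card_CM_ge hP hA (by omega)
  omega

end P2020ba
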