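import Pool.Agent.Lib.P2020ba.Hull3
import Pool.Agent.Lib.UPN.Perturb
import Pool.Agent.Lib.F059.ADefs
import Pool.Agent.Lib.P2020ba.Euler

/-!
# Geometry of the constructed points; drawings and plane sets (MP_2020ba_lc)
-/

set_option autoImplicit false

namespace P2020ba

open UPN F059

variable {V : Type} {u v w : V} {ord : List V} {E : Set (Sym2 V)} {px : V → ℤ} {py : V → ℝ}
  {K : ℝ}

/-! ### The constructed points -/

theorem Crd.lt_abs (h : Crd u v w ord E px py K) {z z' : V} (hz : z ∈ ord) (hz' : z' ∈ ord)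
    (hne : z ≠ z') : 1 ≤ |(px z : ℝ) - px z'| ∧ |(px z : ℝ) - px z'| < K := by
  have h1 : px z ≠ px z' := fun h0 => hne (h.inj z hz z' hz' h0)
  have h2 : (1 : ℤ) ≤ |px z - px z'| := Int.one_le_abs (sub_ne_zero.mpr h1)
  have h3 : ((1 : ℤ) : ℝ) ≤ ((|px z - px z'| : ℤ) : ℝ) := by exact_mod_cast h2
  have h4 := h.bd z hz z' hz'
  push_cast at h3 h4
  exact ⟨h3, h4⟩

theorem Crd.K1 (h : Crd u v w ord E px py K) : 1 < K := by
  have := h.lt_abs h.hu h.hv h.ne.1
  linarith

theorem ori_ptpt (a b c : V) : ori (UPN.pt px py a) (UPN.pt px py b) (UPN.pt px py c) =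
    ((px b : ℝ) - px a) * (py c - py a) - (py b - py a) * ((px c : ℝ) - px a) := rfl

/-- three points in increasing order of height are not collinear -/
theorem Crd.gp_aux (h : Crd u v w ord E px py K) {a b c : V} (ha : a ∈ ord) (hb : b ∈ ord)
    (hc : c ∈ ord) (hab : a ≠ b) (hac : a ≠ c) (h1 : K * py a ≤ py b)
    (h2 : K * py b ≤ py c) : ori (UPN.pt px py a) (UPN.pt px py b) (UPN.pt px py c) ≠ 0 := by
  intro h0
  rw [ori_ptpt] at h0
  obtain ⟨e1, e2⟩ := h.lt_abs hb ha hab.symm
  obtain ⟨e3, e4⟩ := h.lt_abs hc ha hac.symm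
  have hK := h.K1
  have pa := h.pos a ha
  have pb := h.pos b hb
  have hba : py a < py b := by nlinarith
  have hcb : py b < py c := by nlinarith
  have e5 : ((px b : ℝ) - px a) * (py c - py a) = (py b - py a) * ((px c : ℝ) - px a) := by
    linarith
  have e6 : |(px b : ℝ) - px a| * (py c - py a) = (py b - py a) * |(px c : ℝ) - px a| := by
    have e7 := congrArg abs e5
    rw [abs_mul, abs_mul, abs_of_pos (show 0 < py c - py a by linarith),
      abs_of_pos (show 0 < py b - py a by linarith)] at e7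
    exact e7
  have e8 : py c - py a ≤ |(px b : ℝ) - px a| * (py c - py a) := by
    nlinarith
  have e9 : (py b - py a) * |(px c : ℝ) - px a| ≤ (py b - py a) * K :=
    mul_le_mul_of_nonneg_left e4.le (by linarith)
  have e10 : (py b - py a) * K = K * py b - K * py a := by ring
  have e11 : py a < K * py a := by nlinarith
  linarith

theorem Crd.gp (h : Crd u v w ord E px py K) {a b c : V} (ha : a ∈ ord) (hb : b ∈ ord)
    (hc : c ∈ ord) (hab : a ≠ b) (hac : a ≠ c) (hbc : b ≠ c) :
    ori (UPN.pt px py a) (UPN.pt px py b) (UPN.pt px py c) ≠ 0 := by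
  have key : ∀ a b c : V, a ∈ ord → b ∈ ord → c ∈ ord → a ≠ b → a ≠ c → b ≠ c →
      K * py a ≤ py b → ori (UPN.pt px py a) (UPN.pt px py b) (UPN.pt px py c) ≠ 0 := by
    intro a b c ha hb hc hab hac hbc h1
    rcases h.cmp b hb c hc hbc with h2 | h2
    · exact h.gp_aux ha hb hc hab hac h1 h2
    · rcases h.cmp a ha c hc hac with h3 | h3
      · have := h.gp_aux ha hc hb hac hab h3 h2
        rw [ori_swap']
        exact neg_ne_zero.2 this
      · have := h.gp_aux hc ha hb hac.symm hbc.symm h3 h1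
        rw [← ori_cyc (UPN.pt px py c)] at this
        exact this
  rcases h.cmp a ha b hb hab with h1 | h1
  · exact key a b c ha hb hc hab hac hbc h1
  · have := key b a c hb ha hc hab.symm hbc hac h1
    rw [F059.ori_swap]
    exact neg_ne_zero.2 this

/-- the other points are strictly inside the triangle `u`, `w`, `v` -/
theorem Crd.inside (h : Crd u v w ord E px py K) {z : V} (hz : z ∈ ord) (hzu : z ≠ u)
    (hzv : z ≠ v) (hzw : z ≠ w) :
    0 < ori (UPN.pt px py u) (UPN.pt px py w) (UPN.pt px py z) ∧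
      0 < ori (UPN.pt px py w) (UPN.pt px py v) (UPN.pt px py z) ∧
      0 < ori (UPN.pt px py v) (UPN.pt px py u) (UPN.pt px py z) := by
  have hK := h.K1
  obtain ⟨n1, n2, n3⟩ := h.ne
  have cast1 : ∀ a b : V, px a < px b → (px a : ℝ) + 1 ≤ px b := by
    intro a b hab
    exact_mod_cast hab
  have l1 := cast1 _ _ (h.left z hz hzu)
  have l2 := cast1 _ _ (h.right z hz hzw)
  have l3 := cast1 _ _ (h.left v h.hv n1.symm)
  have l4 := cast1 _ _ (h.right v h.hv n3)
  have bdd : ∀ a b : V, a ∈ ord → b ∈ ord → (px a : ℝ) - px b < K := by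
    intro a b ha hb
    have h1 := h.bd a ha b hb
    push_cast at h1
    exact (le_abs_self _).trans_lt h1
  have b1 := bdd w v h.hw h.hv
  have b2 := bdd v u h.hv h.hu
  have pu := h.pos u h.hu
  have pw := h.pos w h.hw
  have pz := h.pos z hz
  have c1 := h.lowu w h.hw n2.symm
  have c2 := h.loww z hz hzu hzw
  have c3 := h.top z hz hzv
  have d1 : py u < py w := by nlinarith
  have d2 : py w < py z := by nlinarith
  have d3 : py z < py v := by nlinarith
  refine ⟨?_, ?_, ?_⟩
  · rw [ori_ptpt]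
    have e1 : (py w - py u) * ((px z : ℝ) - px u) < (py w - py u) * ((px w : ℝ) - px u) :=
      mul_lt_mul_of_pos_left (by linarith) (by linarith)
    have e2 : (py w - py u) * ((px w : ℝ) - px u) < (py z - py u) * ((px w : ℝ) - px u) :=
      mul_lt_mul_of_pos_right (by linarith) (by linarith)
    linarith
  · rw [ori_ptpt]
    -- `(px v - px w)(py z - py w) - (py v - py w)(px z - px w)`
    have e1 : py v - py w ≤ (py v - py w) * ((px w : ℝ) - px z) := by nlinarith
    have e2 : ((px w : ℝ) - px v) * (py z - py w) < K * (py z - py w) :=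
      mul_lt_mul_of_pos_right b1 (by linarith)
    have e3 : K * (py z - py w) = K * py z - K * py w := by ring
    have e4 : py w < K * py w := by nlinarith
    nlinarith
  · rw [ori_ptpt]
    -- `(px u - px v)(py z - py v) - (py u - py v)(px z - px v)`
    have e0 : ((px u : ℝ) - px v) * (py z - py v) - (py u - py v) * ((px z : ℝ) - px v) =
        (py v - py u) * ((px z : ℝ) - px u) - ((px v : ℝ) - px u) * (py z - py u) := by ring
    rw [e0]
    have e1 : py v - py u ≤ (py v - py u) * ((px z : ℝ) - px u) := by nlinarith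
    have e2 : ((px v : ℝ) - px u) * (py z - py u) < K * (py z - py u) :=
      mul_lt_mul_of_pos_right b2 (by linarith)
    have e3 : K * (py z - py u) = K * py z - K * py u := by ring
    have e4 : py u < K * py u := by nlinarith
    linarith

theorem Crd.pos_tri (h : Crd u v w ord E px py K) :
    0 < ori (UPN.pt px py u) (UPN.pt px py w) (UPN.pt px py v) := by
  obtain ⟨n1, n2, n3⟩ := h.ne
  have hK := h.K1
  have cast1 : ∀ a b : V, px a < px b → (px a : ℝ) + 1 ≤ px b := by
    intro a b hab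
    exact_mod_cast hab
  have l3 := cast1 _ _ (h.left v h.hv n1.symm)
  have l4 := cast1 _ _ (h.right v h.hv n3)
  have pu := h.pos u h.hu
  have pw := h.pos w h.hw
  have c1 := h.lowu w h.hw n2.symm
  have c2 := h.top w h.hw n3.symm
  have d1 : py u < py w := by nlinarith
  have d2 : py w < py v := by nlinarith
  rw [ori_ptpt]
  have e1 : (py w - py u) * ((px v : ℝ) - px u) < (py w - py u) * ((px w : ℝ) - px u) :=
    mul_lt_mul_of_pos_left (by linarith) (by linarith)
  have e2 : (py w - py u) * ((px w : ℝ) - px u) < (py v - py u) * ((px w : ℝ) - px u) :=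
    mul_lt_mul_of_pos_right (by linarith) (by linarith)
  linarith

/-! ### Plane sets give drawings -/

theorem ori_seg (c d : F059.Pt) {a b x : F059.Pt} (hx : x ∈ segment ℝ a b) :
    ∃ t : ℝ, 0 ≤ t ∧ t ≤ 1 ∧ ori c d x = (1 - t) * ori c d a + t * ori c d b := by
  obtain ⟨s, t, hs, ht, hst, rfl⟩ := hx
  refine ⟨t, ht, by linarith, ?_⟩
  have : s = 1 - t := by linarith
  subst this
  unfold ori
  simp only [Prod.fst_add, Prod.snd_add, Prod.smul_fst, Prod.smul_snd, smul_eq_mul]
  ring

theorem ori_zero_of_mem {a b x : F059.Pt} (hx : x ∈ segment ℝ a b) : ori a b x = 0 := by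
  obtain ⟨t, -, -, h⟩ := ori_seg a b hx
  rw [h, ori_self_left, ori_self_right]
  ring

/-- crossing of segments in general position -/
theorem cr_of_meet {a b c d x : F059.Pt} (h1 : x ∈ segment ℝ a b) (h2 : x ∈ segment ℝ c d)
    (n1 : ori a b c ≠ 0) (n2 : ori a b d ≠ 0) (n3 : ori c d a ≠ 0) (n4 : ori c d b ≠ 0) :
    Cr a b c d := by
  have key : ∀ a b c d : F059.Pt, x ∈ segment ℝ a b → x ∈ segment ℝ c d → ori c d a ≠ 0 →
      ori c d b ≠ 0 → ori c d a * ori c d b < 0 := by
    intro a b c d h1 h2 n3 n4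
    obtain ⟨t, ht0, ht1, ht⟩ := ori_seg c d h1
    rw [ori_zero_of_mem h2] at ht
    by_contra hcon
    push Not at hcon
    have hpos : 0 < ori c d a * ori c d b :=
      lt_of_le_of_ne hcon (mul_ne_zero n3 n4).symm
    rcases pos_and_pos_or_neg_and_neg_of_mul_pos hpos with ⟨p1, p2⟩ | ⟨p1, p2⟩
    · have e1 := mul_nonneg (sub_nonneg.2 ht1) p1.le
      have e2 := mul_nonneg ht0 p2.le
      have e3 : (1 - t) * ori c d a = 0 := by linarith
      have e4 : t * ori c d b = 0 := by linarith
      have e5 := (mul_eq_zero.1 e3).resolve_right n3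
      have e6 := (mul_eq_zero.1 e4).resolve_right n4
      linarith
    · have e1 := mul_nonpos_of_nonneg_of_nonpos (sub_nonneg.2 ht1) p1.le
      have e2 := mul_nonpos_of_nonneg_of_nonpos ht0 p2.le
      have e3 : (1 - t) * ori c d a = 0 := by linarith
      have e4 : t * ori c d b = 0 := by linarith
      have e5 := (mul_eq_zero.1 e3).resolve_right n3
      have e6 := (mul_eq_zero.1 e4).resolve_right n4
      linarith
  exact ⟨key c d a b h2 h1 n1 n2, key a b c d h1 h2 n3 n4⟩

/-- a plane set of segments in general position is a drawing -/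
theorem drawing_of_plane {k : ℕ} {G : SimpleGraph (Fin k)} {Ψ : Fin k → ℝ × ℝ}
    (hinj : Function.Injective Ψ)
    (hgp : ∀ i j l, i ≠ j → i ≠ l → j ≠ l → ori (Ψ i) (Ψ j) (Ψ l) ≠ 0)
    (hpl : ∀ a b c d, G.Adj a b → G.Adj c d → ¬ Cr (Ψ a) (Ψ b) (Ψ c) (Ψ d)) :
    UPS.IsDrawing G Ψ := by
  refine PerturbAux.drawing_of_good ⟨fun i j hij h => hij (hinj h), ?_⟩
  rintro a b c d hab hcd hca hcb hda hdb ⟨x, h1, h2⟩
  rcases hcd with rfl | hcd
  · rw [segment_same, Set.mem_singleton_iff] at h2
    subst h2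
    exact hgp a b c hab.ne hca.symm hcb.symm (ori_zero_of_mem h1)
  · exact hpl a b c d hab hcd (cr_of_meet h1 h2 (hgp a b c hab.ne hca.symm hcb.symm)
      (hgp a b d hab.ne hda.symm hdb.symm) (hgp c d a hcd.ne hca hda)
      (hgp c d b hcd.ne hcb hdb))

/-! ### Separated points are hull points -/

theorem mem_HV_of_sep {P : Finset F059.Pt} {p : F059.Pt} (hp : p ∈ P) (h2 : 2 ≤ P.card)
    (α β : ℝ) (h : ∀ q ∈ P, q ≠ p → α * p.1 + β * p.2 < α * q.1 + β * q.2) : p ∈ HV P := by
  classical
  obtain ⟨q0, hq0, hq0p⟩ := Finset.exists_mem_ne (by omega : 1 < P.card) p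
  set f : F059.Pt → ℝ := fun q => α * (q.1 - p.1) + β * (q.2 - p.2) with hf
  set g : F059.Pt → ℝ := fun q => -β * (q.1 - p.1) + α * (q.2 - p.2) with hg
  have hfpos : ∀ q ∈ P, q ≠ p → 0 < f q := by
    intro q hq hqp
    have := h q hq hqp
    simp only [hf]
    linarith
  obtain ⟨b, hb, hmax⟩ := (P.erase p).exists_max_image (fun q => g q / f q)
    ⟨q0, Finset.mem_erase.2 ⟨hq0p, hq0⟩⟩
  obtain ⟨hbp, hbP⟩ := Finset.mem_erase.1 hb
  refine Finset.mem_filter.2 ⟨hp, b, hbP, hbp, ?_⟩
  intro z hz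
  by_cases hzp : z = p
  · subst hzp
    rw [ori_self_left]
  · have h3 := hmax z (Finset.mem_erase.2 ⟨hzp, hz⟩)
    have fz := hfpos z hz hzp
    have fb := hfpos b hbP hbp
    rw [div_le_div_iff₀ fz fb] at h3
    have e1 : f b * g z - g b * f z = (α ^ 2 + β ^ 2) * ori p b z := by
      simp only [hf, hg]
      unfold ori
      ring
    have e2 : 0 < α ^ 2 + β ^ 2 := by
      by_contra hcon
      have a0 : α ^ 2 = 0 := by nlinarith [sq_nonneg α, sq_nonneg β]
      have b0 : β ^ 2 = 0 := by nlinarith [sq_nonneg α, sq_nonneg β]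
      have a1 : α = 0 := by simpa using a0
      have b1 : β = 0 := by simpa using b0
      simp only [hf, a1, b1] at fb
      linarith
    have e3 : (α ^ 2 + β ^ 2) * ori p b z ≤ 0 := by
      rw [← e1]
      linarith
    by_contra hcon
    push Not at hcon
    have := mul_pos e2 hcon
    linarith

end P2020ba
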