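import Pool.Agent.Lib.UPN.Stretch
import Pool.Agent.Lib.F059.ADefs

/-!
# Canonical constructions ending in a triangle: all points are in that triangle (MP_2020ba_lc)
-/

set_option autoImplicit false

namespace P2020ba

open UPN UPN.StretchAux

variable {V : Type}

/-- `UPN.StretchAux.main` with the information that the second vertex of the base is the last one
of the preorder and of the contour -/
theorem main3 {stk R ord : List V} {E : Set (Sym2 V)} (h : Bld stk R ord E) :
    ∃ (a : V) (ch : F V), (F.cons a ch .nil).lp = stk ∧ (F.cons a ch .nil).rpre = ord ∧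
      (stk ++ R).Sublist (F.cons a ch .nil).pre ∧ (F.cons a ch .nil).pre.Perm ord ∧
      ord.Nodup ∧ (∀ a b, s(a, b) ∈ E → a ≠ b ∧ a ∈ ord ∧ b ∈ ord) ∧
      (∃ (b : V) (o' l l' : List V), ord = a :: b :: o' ∧ (F.cons a ch .nil).pre = l ++ [b] ∧
        stk ++ R = l' ++ [b]) ∧
      (∃ (v : V) (l'' l3 : List V), stk = l'' ++ [v] ∧ ord = l3 ++ [v]) ∧
      ∀ (px : V → ℤ) (py : V → ℝ) (K : ℝ),
        (F.cons a ch .nil).pre.Pairwise (fun u v => px u < px v) →
        (∀ u ∈ ord, ∀ v ∈ ord, ((|px u - px v| : ℤ) : ℝ) < K) →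
        (∀ v ∈ ord, 0 < py v) →
        ord.Pairwise (fun u v => K * py u ≤ py v) →
        E1 E px py ∧ V1 ord E px py ∧ NC (stk ++ R) E px py := by
  induction h with
  | base a b hab =>
    refine ⟨a, F.cons b .nil .nil, by simp [F.lp], by simp [F.rpre], by simp [F.pre],
      by simp [F.pre], by simp [hab], ?_, ⟨b, [], [a], [a], rfl, by simp [F.pre], rfl⟩,
      ⟨b, [a], [a], rfl, rfl⟩, ?_⟩
    · intro c d hcd
      rw [Set.mem_singleton_iff, Sym2.eq_iff] at hcd
      rcases hcd with ⟨rfl, rfl⟩ | ⟨rfl, rfl⟩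
      · exact ⟨hab, by simp, by simp⟩
      · exact ⟨hab.symm, by simp, by simp⟩
    · intro px py K h1 h2 h3 h4
      refine ⟨?_, ?_, ?_⟩
      · intro p q r s hpq hrs hne
        rw [Set.mem_singleton_iff] at hpq hrs
        exact absurd (hpq.trans hrs.symm) hne
      · intro v hv p q hpq _
        rw [Set.mem_singleton_iff, Sym2.eq_iff] at hpq
        simp only [List.mem_cons, List.not_mem_nil, or_false] at hv
        rcases hpq with ⟨rfl, rfl⟩ | ⟨rfl, rfl⟩
        · exact hv
        · exact hv.symm
      · intro w hw p q hpq h5 h6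
        exfalso
        rw [Set.mem_singleton_iff, Sym2.eq_iff] at hpq
        simp only [List.append_nil, List.mem_cons, List.not_mem_nil, or_false] at hw
        rcases hpq with ⟨rfl, rfl⟩ | ⟨rfl, rfl⟩ <;> rcases hw with rfl | rfl <;> omega
  | step A B R M R' x y v ord E hB hBR hv ih =>
    obtain ⟨a, ch, hlp, hrp, hsub, hperm, hnd, hmem, ⟨b, o', l, l', hb1, hb2, hb3⟩, -, hgeo⟩ := ih
    obtain ⟨ch', C, h1, h2, h3, h4⟩ := ins v x B A a ch .nil hlp
    have hsub' : (M ++ y :: R').Sublist C := by
      rw [h3, List.append_assoc, List.append_sublist_append_left, List.cons_append,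
        List.cons_sublist_cons, hBR] at hsub
      exact hsub
    have hfull : (A ++ x :: v :: (M ++ y :: R')).Sublist (F.cons a ch' .nil).pre := by
      rw [h4, List.append_sublist_append_left]
      exact (hsub'.cons_cons v).cons_cons x
    have hperm' : (F.cons a ch' .nil).pre.Perm (ord ++ [v]) := by
      rw [h4]
      have e1 : (A ++ x :: v :: C).Perm (v :: (A ++ x :: C)) := by
        have : A ++ x :: v :: C = (A ++ [x]) ++ v :: C := by simp
        rw [this]
        have e2 : A ++ x :: C = (A ++ [x]) ++ C := by simp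
        rw [e2]
        exact List.perm_middle
      refine e1.trans ?_
      rw [← h3]
      exact (hperm.cons v).trans (List.perm_append_singleton v ord).symm
    have hctr : ∀ z, z ∈ A ++ x :: (M ++ y :: R') → z ∈ ord := by
      intro z hz
      refine hperm.subset (hsub.subset ?_)
      simp only [List.mem_append, List.mem_cons, ← hBR] at hz ⊢
      have h5 : z ∈ B ++ R ↔ z ∈ M ++ y :: R' := by rw [hBR]
      simp only [List.mem_append, List.mem_cons] at h5
      tauto
    -- the last elements
    have hlastC : ∃ C', C = C' ++ [b] := by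
      have hCne : C ≠ [] := by
        rintro rfl
        have := hsub'.length_le
        simp at this
      obtain ⟨C', c, hC'⟩ : ∃ C' c, C = C' ++ [c] := by
        rcases List.eq_nil_or_concat C with h0 | ⟨L, c, h0⟩
        · exact absurd h0 hCne
        · exact ⟨L, c, by rw [h0, List.concat_eq_append]⟩
      have h5 : (A ++ x :: C') ++ [c] = l ++ [b] := by
        rw [← hb2, h3, hC']
        simp
      have h6 := (List.append_inj' h5 rfl).2
      simp only [List.cons.injEq, and_true] at h6
      exact ⟨C', by rw [hC', h6]⟩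
    have hlastR : ∃ r, y :: R' = r ++ [b] := by
      obtain ⟨r, c, hr⟩ : ∃ r c, y :: R' = r ++ [c] := by
        rcases List.eq_nil_or_concat (y :: R') with h0 | ⟨L, c, h0⟩
        · exact absurd h0 (by simp)
        · exact ⟨L, c, by rw [h0, List.concat_eq_append]⟩
      have h5 : (A ++ x :: (M ++ r)) ++ [c] = l' ++ [b] := by
        calc (A ++ x :: (M ++ r)) ++ [c] = A ++ x :: (M ++ (r ++ [c])) := by simp
          _ = A ++ x :: (B ++ R) := by rw [← hr, ← hBR]
          _ = l' ++ [b] := by rw [← hb3]; simp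
      have h6 := (List.append_inj' h5 rfl).2
      simp only [List.cons.injEq, and_true] at h6
      exact ⟨r, by rw [hr, h6]⟩
    refine ⟨a, ch', h1, by rw [h2, hrp], ?_, hperm', ?_, ?_, ?_, ⟨v, A ++ [x], ord, by simp, rfl⟩,
      ?_⟩
    · refine List.Sublist.trans ?_ hfull
      have : A ++ [x, v] ++ y :: R' = A ++ x :: v :: (y :: R') := by simp
      rw [this, List.append_sublist_append_left]
      exact ((List.sublist_append_right M (y :: R')).cons_cons v).cons_cons x
    · rw [List.nodup_append]
      refine ⟨hnd, by simp, ?_⟩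
      intro u hu w hw huw
      rw [List.mem_singleton] at hw
      subst hw huw
      exact hv hu
    · intro p q hpq
      rcases hpq with hpq | hpq
      · obtain ⟨h5, h6, h7⟩ := hmem p q hpq
        exact ⟨h5, List.mem_append_left _ h6, List.mem_append_left _ h7⟩
      · have h5 : ∃ z, z ∈ ord ∧ s(p, q) = s(v, z) := by
          rcases hpq with h | h | ⟨z, hz, h⟩
          · exact ⟨x, hctr x (by simp), h⟩
          · exact ⟨y, hctr y (by simp), h⟩
          · exact ⟨z, hctr z (by simp [hz]), h⟩
        obtain ⟨z, hz, h⟩ := h5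
        have hzv : z ≠ v := by
          rintro rfl
          exact hv hz
        rw [Sym2.eq_iff] at h
        rcases h with ⟨rfl, rfl⟩ | ⟨rfl, rfl⟩
        · exact ⟨hzv.symm, by simp, List.mem_append_left _ hz⟩
        · exact ⟨hzv, List.mem_append_left _ hz, by simp⟩
    · obtain ⟨C', hC'⟩ := hlastC
      obtain ⟨r, hr⟩ := hlastR
      refine ⟨b, o' ++ [v], A ++ x :: v :: C', A ++ [x, v] ++ r, ?_, ?_, ?_⟩
      · rw [hb1]; simp
      · rw [h4, hC']; simp
      · rw [hr]; simp
    · intro px py K g1 g2 g3 g4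
      have g1' : (F.cons a ch .nil).pre.Pairwise (fun u v => px u < px v) := by
        refine g1.sublist ?_
        rw [h3, h4, List.append_sublist_append_left]
        exact (List.sublist_cons_self v C).cons_cons x
      rw [List.pairwise_append] at g4
      obtain ⟨g4a, -, g4b⟩ := g4
      obtain ⟨k1, k2, k3⟩ := hgeo px py K g1'
        (fun u hu w hw => g2 u (List.mem_append_left _ hu) w (List.mem_append_left _ hw))
        (fun u hu => g3 u (List.mem_append_left _ hu)) g4a
      have hinj : ∀ u ∈ ord ++ [v], ∀ w ∈ ord ++ [v], px u = px w → u = w := by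
        have key : ∀ l : List V, l.Pairwise (fun u v => px u < px v) → ∀ u ∈ l, ∀ w ∈ l,
            px u = px w → u = w := by
          intro l hl
          induction l with
          | nil => intro u hu; simp at hu
          | cons c l ihl =>
            rw [List.pairwise_cons] at hl
            intro u hu w hw huw
            rw [List.mem_cons] at hu hw
            rcases hu with rfl | hu <;> rcases hw with rfl | hw
            · rfl
            · have := hl.1 w hw
              omega
            · have := hl.1 u hu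
              omega
            · exact ihl hl.2 u hu w hw huw
        intro u hu w hw huw
        exact key _ g1 u (hperm'.symm.subset hu) w (hperm'.symm.subset hw) huw
      have hNC : NC (A ++ x :: (M ++ y :: R')) E px py := by
        intro w hw
        refine k3 w ?_
        have h5 : w ∈ B ++ R ↔ w ∈ M ++ y :: R' := by rw [hBR]
        simp only [List.mem_append, List.mem_cons] at h5 hw ⊢
        tauto
      exact step_geo hinj (g1.sublist hfull) hctr g2 g3 (fun u hu => g4b u hu v (by simp)) hv
        hmem k1 k2 hNC rfl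

/-! ### Positions in a list -/

theorem exists_pos_fun (l : List V) (hl : l.Nodup) :
    ∃ f : V → ℕ, l.Pairwise (fun u v => f u < f v) ∧ ∀ v ∈ l, f v < l.length := by
  classical
  refine ⟨fun v => l.idxOf v, ?_, fun v hv => List.idxOf_lt_length_iff.2 hv⟩
  rw [List.pairwise_iff_getElem]
  intro i j hi hj hij
  show List.idxOf l[i] l < List.idxOf l[j] l
  rw [List.Nodup.idxOf_getElem hl, List.Nodup.idxOf_getElem hl]
  exact hij

/-- the coordinates of a construction whose last contour is the triangle `u`, `v`, `w` -/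
structure Crd (u v w : V) (ord : List V) (E : Set (Sym2 V)) (px : V → ℤ) (py : V → ℝ)
    (K : ℝ) : Prop where
  e1 : E1 E px py
  v1 : V1 ord E px py
  hu : u ∈ ord
  hv : v ∈ ord
  hw : w ∈ ord
  inj : ∀ z ∈ ord, ∀ z' ∈ ord, px z = px z' → z = z'
  left : ∀ z ∈ ord, z ≠ u → px u < px z
  right : ∀ z ∈ ord, z ≠ w → px z < px w
  bd : ∀ z ∈ ord, ∀ z' ∈ ord, ((|px z - px z'| : ℤ) : ℝ) < K
  pos : ∀ z ∈ ord, 0 < py z
  cmp : ∀ z ∈ ord, ∀ z' ∈ ord, z ≠ z' → K * py z ≤ py z' ∨ K * py z' ≤ py z
  lowu : ∀ z ∈ ord, z ≠ u → K * py u ≤ py z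
  loww : ∀ z ∈ ord, z ≠ u → z ≠ w → K * py w ≤ py z
  top : ∀ z ∈ ord, z ≠ v → K * py z ≤ py v
  ne : u ≠ v ∧ u ≠ w ∧ v ≠ w
  mem : ∀ a b, s(a, b) ∈ E → a ≠ b ∧ a ∈ ord ∧ b ∈ ord

theorem exists_crd {stk R ord : List V} {E : Set (Sym2 V)} (h : Bld stk R ord E) {u v w : V}
    (hc : stk ++ R = [u, v, w]) : ∃ px py K, Crd u v w ord E px py K := by
  obtain ⟨a, ch, hlp, -, hsub, hperm, hnd, hmem, ⟨b, o', l, l', hb1, hb2, hb3⟩,
    ⟨v', l'', l3, hv1, hv2⟩, hgeo⟩ := main3 h
  -- identification of the three vertices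
  have hbw : b = w := by
    rw [hc] at hb3
    have h5 : [u, v] ++ [w] = l' ++ [b] := hb3
    have h6 := (List.append_inj' h5 rfl).2
    simp only [List.cons.injEq, and_true] at h6
    exact h6.symm
  subst hbw
  have hau : a = u := by
    have h5 : (F.cons a ch .nil).lp = a :: ch.lp := rfl
    rw [← hlp, h5, List.cons_append] at hc
    simp only [List.cons.injEq] at hc
    exact hc.1
  subst hau
  have hnd2 : ([a, v, b] : List V).Nodup := by
    rw [← hc]
    exact (hperm.nodup_iff.2 hnd).sublist hsub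
  have hne : a ≠ v ∧ a ≠ b ∧ v ≠ b := by
    simp only [List.nodup_cons, List.mem_cons, List.not_mem_nil, or_false, not_or] at hnd2
    exact ⟨hnd2.1.1, hnd2.1.2, hnd2.2.1⟩
  have hvv : v' = v := by
    -- `v'` is the last of `stk`, a prefix of `[a, v, b]`
    have h5 : v' ∈ ([a, v, b] : List V) := by
      rw [← hc, hv1]; simp
    simp only [List.mem_cons, List.not_mem_nil, or_false] at h5
    have ho : o' ≠ [] := by
      rintro rfl
      have h6 : v ∈ ord := by
        apply hperm.subset
        apply hsub.subset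
        rw [hc]; simp
      rw [hb1] at h6
      simp only [List.mem_cons, List.not_mem_nil, or_false] at h6
      rcases h6 with h6 | h6
      · exact hne.1 h6.symm
      · exact hne.2.2 h6
    obtain ⟨o2, c, ho2⟩ : ∃ L c, o' = L ++ [c] := by
      rcases List.eq_nil_or_concat o' with h0 | ⟨L, c, h0⟩
      · exact absurd h0 ho
      · exact ⟨L, c, by rw [h0, List.concat_eq_append]⟩
    have h7 : (a :: b :: o2) ++ [c] = l3 ++ [v'] := by
      rw [← hv2, hb1, ho2]; simp
    have h8 := (List.append_inj' h7 rfl).2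
    simp only [List.cons.injEq, and_true] at h8
    have hnd3 := hnd
    rw [hb1, ho2, h8] at hnd3
    simp only [List.nodup_cons, List.mem_cons, List.mem_append, List.not_mem_nil, or_false,
      not_or] at hnd3
    rcases h5 with h5 | h5 | h5
    · exact absurd h5.symm hnd3.1.2.2
    · exact h5
    · exact absurd h5.symm hnd3.2.1.2
  subst hvv
  have hndp : (F.cons a ch .nil).pre.Nodup := hperm.nodup_iff.2 hnd
  obtain ⟨f, hf1, hf2⟩ := exists_pos_fun _ hndp
  obtain ⟨g, hg1, hg2⟩ := exists_pos_fun _ hnd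
  have hmp : ∀ z, z ∈ ord ↔ z ∈ (F.cons a ch .nil).pre := fun z => (hperm.mem_iff).symm
  have hlen : (F.cons a ch .nil).pre.length = ord.length := hperm.length_eq
  set K : ℝ := (ord.length : ℝ) + 1 with hK
  have hK1 : 1 ≤ K := by
    rw [hK]
    have : (0 : ℝ) ≤ ord.length := Nat.cast_nonneg _
    linarith
  have hK0 : 0 < K := by linarith
  have ppx : (F.cons a ch .nil).pre.Pairwise (fun u v => ((f u : ℕ) : ℤ) < ((f v : ℕ) : ℤ)) :=
    hf1.imp (fun h => by exact_mod_cast h)
  have ppy : ord.Pairwise (fun u v => K * (K ^ (g u)) ≤ K ^ (g v)) := by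
    refine hg1.imp ?_
    intro u v h
    rw [← pow_succ']
    exact pow_le_pow_right₀ hK1 (by omega)
  have bd : ∀ z ∈ ord, ∀ z' ∈ ord, ((|((f z : ℕ) : ℤ) - ((f z' : ℕ) : ℤ)| : ℤ) : ℝ) < K := by
    intro z hz z' hz'
    have h1 := hf2 z ((hmp z).1 hz)
    have h2 := hf2 z' ((hmp z').1 hz')
    rw [hlen] at h1 h2
    have h3 : |((f z : ℕ) : ℤ) - ((f z' : ℕ) : ℤ)| < (ord.length : ℤ) + 1 := by
      rw [abs_lt]
      constructor <;> omega
    rw [hK]
    exact_mod_cast h3
  have pos : ∀ z ∈ ord, (0 : ℝ) < K ^ (g z) := fun z _ => by positivity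
  obtain ⟨k1, k2, -⟩ := hgeo (fun z => ((f z : ℕ) : ℤ)) (fun z => K ^ (g z)) K ppx bd pos ppy
  have hordv : ord = a :: b :: o' := hb1
  refine ⟨fun z => ((f z : ℕ) : ℤ), fun z => K ^ (g z), K, ⟨k1, k2, ?_, ?_, ?_, ?_, ?_, ?_, bd,
    pos, ?_, ?_, ?_, ?_, hne, hmem⟩⟩
  · rw [hb1]; simp
  · rw [hv2]; simp
  · rw [hb1]; simp
  · intro z hz z' hz' hzz
    by_contra hne'
    have h1 : (F.cons a ch .nil).pre.Pairwise (fun u v => f u ≠ f v) :=
      hf1.imp (fun h => ne_of_lt h)
    have : Std.Symm (fun u v : V => f u ≠ f v) := ⟨fun _ _ h => h.symm⟩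
    exact h1.forall ((hmp z).1 hz) ((hmp z').1 hz') hne' (by exact_mod_cast hzz)
  · intro z hz hza
    have h1 := (hmp z).1 hz
    have h2 : (F.cons a ch .nil).pre = a :: (ch.pre ++ F.nil.pre) := rfl
    rw [h2] at h1 ppx
    rw [List.pairwise_cons] at ppx
    exact ppx.1 z ((List.mem_cons.1 h1).resolve_left hza)
  · intro z hz hzb
    have h1 := (hmp z).1 hz
    rw [hb2] at h1 ppx
    rw [List.pairwise_append] at ppx
    rw [List.mem_append, List.mem_singleton] at h1
    exact ppx.2.2 z (h1.resolve_right hzb) b (by simp)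
  · intro z hz z' hz' hzz
    have h1 : ord.Pairwise (fun u v => K * (K ^ (g u)) ≤ K ^ (g v) ∨
        K * (K ^ (g v)) ≤ K ^ (g u)) := ppy.imp (fun h => Or.inl h)
    have : Std.Symm (fun u v : V => K * (K ^ (g u)) ≤ K ^ (g v) ∨
        K * (K ^ (g v)) ≤ K ^ (g u)) := ⟨fun _ _ h => h.symm⟩
    exact h1.forall hz hz' hzz
  · intro z hz hza
    rw [hb1] at hz ppy
    rw [List.pairwise_cons] at ppy
    exact ppy.1 z ((List.mem_cons.1 hz).resolve_left hza)
  · intro z hz hza hzb
    rw [hb1] at hz ppy
    rw [List.pairwise_cons, List.pairwise_cons] at ppy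
    exact ppy.2.1 z ((List.mem_cons.1 ((List.mem_cons.1 hz).resolve_left hza)).resolve_left hzb)
  · intro z hz hzv
    rw [hv2] at hz ppy
    rw [List.pairwise_append] at ppy
    rw [List.mem_append, List.mem_singleton] at hz
    exact ppy.2.2 z (hz.resolve_right hzv) v' (by simp)

end P2020ba
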