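import Mathlib

/-!
# Families cut out by linear functionals are small (MP_2020ba_lc)

The Sauer-Shelah lemma for the sets `{x ∈ X | 0 < f (v x)}`, `f` a linear functional on `ℝ^D`.
-/

set_option autoImplicit false

namespace P2020ba

open Finset

variable {ι : Type*} [DecidableEq ι]

theorem card_small (X : Finset ι) (D : ℕ) :
    (X.powerset.filter (fun s => s.card ≤ D)).card ≤ (X.card + 1) ^ D := by
  classical
  set O : Finset (Option ι) := insert none (X.image some) with hO
  have hOc : O.card = X.card + 1 := by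
    rw [hO, Finset.card_insert_of_notMem (by simp),
      Finset.card_image_of_injective _ (Option.some_injective _)]
  set Q : Finset (Fin D → Option ι) := Fintype.piFinset (fun _ => O) with hQ
  have hQc : Q.card = (X.card + 1) ^ D := by
    rw [hQ, Fintype.card_piFinset]
    simp [hOc]
  rw [← hQc]
  refine Finset.card_le_card_of_surjOn
    (fun g => X.filter (fun x => ∃ j, g j = some x)) ?_
  intro s hs
  rw [Finset.mem_coe, Finset.mem_filter, Finset.mem_powerset] at hs
  refine ⟨fun j => s.toList[(j : ℕ)]?, ?_, ?_⟩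
  · rw [Finset.mem_coe, hQ, Fintype.mem_piFinset]
    intro j
    rw [hO, Finset.mem_insert]
    rcases h : s.toList[(j : ℕ)]? with _ | x
    · exact Or.inl rfl
    · right
      rw [Finset.mem_image]
      refine ⟨x, hs.1 ?_, rfl⟩
      have : x ∈ s.toList := List.mem_iff_getElem?.2 ⟨j, h⟩
      exact Finset.mem_toList.1 this
  · ext x
    simp only [Finset.mem_filter]
    constructor
    · rintro ⟨-, j, h⟩
      have : x ∈ s.toList := List.mem_iff_getElem?.2 ⟨j, h⟩
      exact Finset.mem_toList.1 this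
    · intro hx
      refine ⟨hs.1 hx, ?_⟩
      obtain ⟨j, hj⟩ := List.mem_iff_getElem?.1 (Finset.mem_toList.2 hx)
      have hj2 : j < s.toList.length := by
        by_contra hcon
        rw [List.getElem?_eq_none (not_lt.1 hcon)] at hj
        exact absurd hj (by simp)
      rw [Finset.length_toList] at hj2
      exact ⟨⟨j, by omega⟩, hj⟩

theorem shatters_card_le {X : Finset ι} {D : ℕ} (v : ι → Fin D → ℝ) (𝒜 : Finset (Finset ι))
    (h : ∀ s ∈ 𝒜, s ⊆ X ∧ ∃ f : Fin D → ℝ, ∀ x ∈ X, (x ∈ s ↔ 0 < ∑ j, f j * v x j))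
    {s : Finset ι} (hs : 𝒜.Shatters s) : s.card ≤ D := by
  classical
  have hsX : s ⊆ X := by
    obtain ⟨t, ht, hst⟩ := hs.exists_superset
    exact hst.trans (h t ht).1
  by_contra hcon
  push Not at hcon
  have hnot : ¬ LinearIndependent ℝ (fun x : s => v x.1) := by
    intro hli
    have h1 := hli.fintype_card_le_finrank
    rw [Module.finrank_fin_fun, Fintype.card_coe] at h1
    omega
  obtain ⟨g, hg, x0, hx0⟩ := Fintype.not_linearIndependent_iff.1 hnot
  obtain ⟨g, hg, x0, hx0⟩ : ∃ g : s → ℝ, ∑ x, g x • v x.1 = 0 ∧ ∃ x, 0 < g x := by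
    rcases lt_or_gt_of_ne hx0 with h1 | h1
    · refine ⟨fun x => - g x, ?_, x0, by simpa using h1⟩
      simp only [neg_smul, Finset.sum_neg_distrib, hg, neg_zero]
    · exact ⟨g, hg, x0, h1⟩
  set J : Finset ι := (s.attach.filter (fun x => 0 < g x)).image Subtype.val with hJ
  have hJs : J ⊆ s := by
    intro x hx
    rw [hJ, Finset.mem_image] at hx
    obtain ⟨y, -, rfl⟩ := hx
    exact y.2
  have hmJ : ∀ x : s, x.1 ∈ J ↔ 0 < g x := by
    intro x
    rw [hJ, Finset.mem_image]
    constructor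
    · rintro ⟨y, hy, hyx⟩
      rw [← Subtype.ext hyx]
      exact (Finset.mem_filter.1 hy).2
    · intro hx
      exact ⟨x, Finset.mem_filter.2 ⟨Finset.mem_attach _ _, hx⟩, rfl⟩
  obtain ⟨u, hu, hsu⟩ := hs hJs
  obtain ⟨-, f, hf⟩ := h u hu
  have key : ∀ x : s, (0 < g x ↔ 0 < ∑ j, f j * v x.1 j) := by
    intro x
    rw [← hmJ x, ← hf x.1 (hsX x.2), ← hsu, Finset.mem_inter]
    exact ⟨fun h => h.2, fun h => ⟨x.2, h⟩⟩
  have hsum : ∑ x : s, g x * ∑ j, f j * v x.1 j = 0 := by
    have h1 : ∑ x : s, g x * ∑ j, f j * v x.1 j = ∑ j, f j * (∑ x : s, g x • v x.1) j := by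
      simp only [Finset.mul_sum, Finset.sum_apply, Pi.smul_apply, smul_eq_mul]
      rw [Finset.sum_comm]
      refine Finset.sum_congr rfl fun j _ => Finset.sum_congr rfl fun x _ => ?_
      ring
    rw [h1, hg]
    simp
  have hpos : 0 < ∑ x : s, g x * ∑ j, f j * v x.1 j := by
    refine Finset.sum_pos' ?_ ⟨x0, Finset.mem_univ _, mul_pos hx0 ((key x0).1 hx0)⟩
    intro x _
    by_cases hx : 0 < g x
    · exact (mul_pos hx ((key x).1 hx)).le
    · have h1 : ¬ 0 < ∑ j, f j * v x.1 j := fun h => hx ((key x).2 h)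
      exact mul_nonneg_of_nonpos_of_nonpos (not_lt.1 hx) (not_lt.1 h1)
  linarith

/-- **Sauer-Shelah for linear functionals.** -/
theorem card_family_le (X : Finset ι) {D : ℕ} (v : ι → Fin D → ℝ) (𝒜 : Finset (Finset ι))
    (h : ∀ s ∈ 𝒜, s ⊆ X ∧ ∃ f : Fin D → ℝ, ∀ x ∈ X, (x ∈ s ↔ 0 < ∑ j, f j * v x j)) :
    𝒜.card ≤ (X.card + 1) ^ D := by
  classical
  refine (card_le_card_shatterer 𝒜).trans (le_trans (Finset.card_le_card ?_) (card_small X D))
  intro s hs
  rw [mem_shatterer] at hs
  rw [Finset.mem_filter, Finset.mem_powerset]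
  refine ⟨?_, shatters_card_le v 𝒜 h hs⟩
  obtain ⟨t, ht, hst⟩ := hs.exists_superset
  exact hst.trans (h t ht).1

end P2020ba
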