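import Pool.Agent.Lib.P2020ba.Transport
import Pool.Agent.Lib.P2020ba.VC

/-!
# Polynomially many extreme points suffice (MP_2020ba_lc)
-/

set_option autoImplicit false

namespace P2020ba

open UPN F059

open Classical in
/-- the orientations of `a` with respect to pairs of points -/
noncomputable def t1 (I : Finset (ℝ × ℝ)) (a : ℝ × ℝ) : Finset ((ℝ × ℝ) × (ℝ × ℝ)) :=
  (I ×ˢ I).filter (fun x => 0 < ori a x.1 x.2)

open Classical in
/-- the signs of the scalar products -/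
noncomputable def t1' (I : Finset (ℝ × ℝ)) (a : ℝ × ℝ) : Finset ((ℝ × ℝ) × (ℝ × ℝ)) :=
  (I ×ˢ I).filter (fun x => 0 < dot a x.1 x.2)

open Classical in
/-- the points on the left of `a b` -/
noncomputable def t2 (I : Finset (ℝ × ℝ)) (a b : ℝ × ℝ) : Finset (ℝ × ℝ) :=
  I.filter (fun y => 0 < ori a b y)

/-- the data which describe the position of a triple -/
noncomputable def Ty (I : Finset (ℝ × ℝ)) (t : Fin 3 → ℝ × ℝ) :
    (Fin 3 → Finset ((ℝ × ℝ) × (ℝ × ℝ))) × (Fin 3 → Finset ((ℝ × ℝ) × (ℝ × ℝ))) ×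
      (Fin 3 × Bool → Finset (ℝ × ℝ)) × Bool :=
  (fun i => t1 I (t i), fun i => t1' I (t i),
    fun x => if x.2 then t2 I (t x.1) (t (x.1 + 1)) else t2 I (t (x.1 + 1)) (t x.1),
    @decide (0 < ori (t 0) (t 1) (t 2)) (Classical.propDecidable _))

theorem mem_t1 {I : Finset (ℝ × ℝ)} {a y z : ℝ × ℝ} (hy : y ∈ I) (hz : z ∈ I) :
    (y, z) ∈ t1 I a ↔ 0 < ori a y z := by
  classical
  constructor
  · intro h
    exact (Finset.mem_filter.1 h).2
  · intro h
    exact Finset.mem_filter.2 ⟨Finset.mem_product.2 ⟨hy, hz⟩, h⟩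

theorem mem_t1' {I : Finset (ℝ × ℝ)} {a y z : ℝ × ℝ} (hy : y ∈ I) (hz : z ∈ I) :
    (y, z) ∈ t1' I a ↔ 0 < dot a y z := by
  classical
  constructor
  · intro h
    exact (Finset.mem_filter.1 h).2
  · intro h
    exact Finset.mem_filter.2 ⟨Finset.mem_product.2 ⟨hy, hz⟩, h⟩

theorem mem_t2 {I : Finset (ℝ × ℝ)} {a b y : ℝ × ℝ} (hy : y ∈ I) :
    y ∈ t2 I a b ↔ 0 < ori a b y := by
  classical
  constructor
  · intro h
    exact (Finset.mem_filter.1 h).2
  · intro h
    exact Finset.mem_filter.2 ⟨hy, h⟩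

theorem eqv_of_Ty {I : Finset (ℝ × ℝ)} {t t' : Fin 3 → ℝ × ℝ} (h : Ty I t = Ty I t') :
    Eqv I t t' := by
  classical
  unfold Ty at h
  simp only [Prod.mk.injEq] at h
  obtain ⟨h1, h2, h3, h4⟩ := h
  refine ⟨?_, ?_, ?_, ?_⟩
  · intro i y hy z hz
    rw [← mem_t1 hy hz, ← mem_t1 hy hz]
    have h5 : t1 I (t i) = t1 I (t' i) := congrFun h1 i
    rw [h5]
  · intro i y hy z hz
    rw [← mem_t1' hy hz, ← mem_t1' hy hz]
    have h5 : t1' I (t i) = t1' I (t' i) := congrFun h2 i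
    rw [h5]
  · intro i j hij y hy
    rw [← mem_t2 hy, ← mem_t2 hy]
    have hc : ∀ i j : Fin 3, i ≠ j → j = i + 1 ∨ i = j + 1 := by decide
    rcases hc i j hij with rfl | rfl
    · have h5 : t2 I (t i) (t (i + 1)) = t2 I (t' i) (t' (i + 1)) := congrFun h3 (i, true)
      rw [h5]
    · have h5 : t2 I (t (j + 1)) (t j) = t2 I (t' (j + 1)) (t' j) := congrFun h3 (j, false)
      rw [h5]
  · by_cases a : 0 < ori (t 0) (t 1) (t 2) <;> by_cases b : 0 < ori (t' 0) (t' 1) (t' 2) <;>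
      simp [a, b] at h4 ⊢

/-! ### Counting -/

theorem card_t1 (I E : Finset (ℝ × ℝ)) : (E.image (t1 I)).card ≤ (I.card * I.card + 1) ^ 3 := by
  classical
  have h := card_family_le (I ×ˢ I) (D := 3)
    (fun x => ![x.1.2 - x.2.2, x.2.1 - x.1.1, x.1.1 * x.2.2 - x.1.2 * x.2.1]) (E.image (t1 I)) ?_
  · rwa [Finset.card_product] at h
  · intro s hs
    obtain ⟨a, -, rfl⟩ := Finset.mem_image.1 hs
    refine ⟨Finset.filter_subset _ _, ![a.1, a.2, 1], ?_⟩
    rintro ⟨y, z⟩ hx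
    rw [Finset.mem_product] at hx
    rw [mem_t1 hx.1 hx.2]
    have : ∑ j : Fin 3, (![a.1, a.2, 1] : Fin 3 → ℝ) j *
        (![y.2 - z.2, z.1 - y.1, y.1 * z.2 - y.2 * z.1] : Fin 3 → ℝ) j = ori a y z := by
      simp only [Fin.sum_univ_three, Matrix.cons_val_zero, Matrix.cons_val_one,
        Matrix.cons_val]
      unfold ori
      ring
    simp only at this ⊢
    rw [this]

theorem card_t1' (I E : Finset (ℝ × ℝ)) :
    (E.image (t1' I)).card ≤ (I.card * I.card + 1) ^ 3 := by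
  classical
  have h := card_family_le (I ×ˢ I) (D := 3)
    (fun x => ![x.2.1 - x.1.1, x.2.2 - x.1.2,
      -(x.1.1 * (x.2.1 - x.1.1)) - x.1.2 * (x.2.2 - x.1.2)]) (E.image (t1' I)) ?_
  · rwa [Finset.card_product] at h
  · intro s hs
    obtain ⟨a, -, rfl⟩ := Finset.mem_image.1 hs
    refine ⟨Finset.filter_subset _ _, ![a.1, a.2, 1], ?_⟩
    rintro ⟨y, z⟩ hx
    rw [Finset.mem_product] at hx
    rw [mem_t1' hx.1 hx.2]
    have : ∑ j : Fin 3, (![a.1, a.2, 1] : Fin 3 → ℝ) j *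
        (![z.1 - y.1, z.2 - y.2, -(y.1 * (z.1 - y.1)) - y.2 * (z.2 - y.2)] : Fin 3 → ℝ) j =
        dot a y z := by
      simp only [Fin.sum_univ_three, Matrix.cons_val_zero, Matrix.cons_val_one,
        Matrix.cons_val]
      unfold dot
      ring
    simp only at this ⊢
    rw [this]

theorem card_t2 (I : Finset (ℝ × ℝ)) (E : Finset ((ℝ × ℝ) × (ℝ × ℝ))) :
    (E.image (fun x => t2 I x.1 x.2)).card ≤ (I.card + 1) ^ 3 := by
  classical
  refine card_family_le I (D := 3) (fun y => ![y.1, y.2, 1]) _ ?_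
  intro s hs
  obtain ⟨⟨a, b⟩, -, rfl⟩ := Finset.mem_image.1 hs
  refine ⟨Finset.filter_subset _ _, ![a.2 - b.2, b.1 - a.1, a.1 * b.2 - a.2 * b.1], ?_⟩
  intro y hy
  rw [mem_t2 hy]
  have : ∑ j : Fin 3, (![a.2 - b.2, b.1 - a.1, a.1 * b.2 - a.2 * b.1] : Fin 3 → ℝ) j *
      (![y.1, y.2, 1] : Fin 3 → ℝ) j = ori a b y := by
    simp only [Fin.sum_univ_three, Matrix.cons_val_zero, Matrix.cons_val_one,
      Matrix.cons_val]
    unfold ori
    ring
  rw [this]

open Classical in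
/-- the triples of extreme points -/
noncomputable def Trs (S : Finset (ℝ × ℝ)) : Finset (Fin 3 → ℝ × ℝ) :=
  Fintype.piFinset (fun _ : Fin 3 => ext S)

theorem mem_Trs {S : Finset (ℝ × ℝ)} {t : Fin 3 → ℝ × ℝ} : t ∈ Trs S ↔ ∀ i, t i ∈ ext S := by
  classical
  unfold Trs
  rw [Fintype.mem_piFinset]

/-- the coincidences in a triple -/
noncomputable def Pat (t : Fin 3 → ℝ × ℝ) : Bool × Bool × Bool :=
  (@decide (t 0 = t 1) (Classical.propDecidable _), @decide (t 0 = t 2) (Classical.propDecidable _),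
    @decide (t 1 = t 2) (Classical.propDecidable _))

theorem eq_of_Pat {t t' : Fin 3 → ℝ × ℝ} (h : Pat t = Pat t') :
    ∀ i j, (t i = t j ↔ t' i = t' j) := by
  classical
  unfold Pat at h
  simp only [Prod.mk.injEq, decide_eq_decide] at h
  obtain ⟨h1, h2, h3⟩ := h
  intro i j
  fin_cases i <;> fin_cases j
  · exact ⟨fun _ => rfl, fun _ => rfl⟩
  · exact h1
  · exact h2
  · exact ⟨fun e => (h1.1 e.symm).symm, fun e => (h1.2 e.symm).symm⟩
  · exact ⟨fun _ => rfl, fun _ => rfl⟩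
  · exact h3
  · exact ⟨fun e => (h2.1 e.symm).symm, fun e => (h2.2 e.symm).symm⟩
  · exact ⟨fun e => (h3.1 e.symm).symm, fun e => (h3.2 e.symm).symm⟩
  · exact ⟨fun _ => rfl, fun _ => rfl⟩

/-- the data which describe a triple -/
noncomputable def Dat (I : Finset (ℝ × ℝ)) (t : Fin 3 → ℝ × ℝ) :
    ((Fin 3 → Finset ((ℝ × ℝ) × (ℝ × ℝ))) × (Fin 3 → Finset ((ℝ × ℝ) × (ℝ × ℝ))) ×
      (Fin 3 × Bool → Finset (ℝ × ℝ)) × Bool) × (Bool × Bool × Bool) :=
  (Ty I t, Pat t)

theorem card_types (S : Finset (ℝ × ℝ)) [DecidableEq (((Fin 3 → Finset ((ℝ × ℝ) × (ℝ × ℝ))) ×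
    (Fin 3 → Finset ((ℝ × ℝ) × (ℝ × ℝ))) × (Fin 3 × Bool → Finset (ℝ × ℝ)) × Bool) ×
      (Bool × Bool × Bool))] :
    ((Trs S).image (Dat (inner S))).card ≤ 16 * ((inner S).card + 1) ^ 54 := by
  classical
  set I := inner S with hI
  set i := I.card with hi
  have h1 : ((Trs S).image (Dat I)) ⊆
      ((Fintype.piFinset (fun _ : Fin 3 => (ext S).image (t1 I))) ×ˢ
      ((Fintype.piFinset (fun _ : Fin 3 => (ext S).image (t1' I))) ×ˢ
      ((Fintype.piFinset (fun _ : Fin 3 × Bool =>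
        (ext S ×ˢ ext S).image (fun x => t2 I x.1 x.2))) ×ˢ (Finset.univ : Finset Bool)))) ×ˢ
        (Finset.univ : Finset (Bool × Bool × Bool)) := by
    intro τ hτ
    obtain ⟨t, ht, rfl⟩ := Finset.mem_image.1 hτ
    have ht' := mem_Trs.1 ht
    rw [Finset.mem_product, Finset.mem_product, Finset.mem_product, Finset.mem_product,
      Fintype.mem_piFinset, Fintype.mem_piFinset, Fintype.mem_piFinset]
    refine ⟨⟨fun i => Finset.mem_image_of_mem _ (ht' i), fun i =>
      Finset.mem_image_of_mem _ (ht' i), fun x => ?_, Finset.mem_univ _⟩, Finset.mem_univ _⟩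
    rcases x with ⟨j, β⟩
    cases β with
    | true =>
      exact Finset.mem_image.2 ⟨(t j, t (j + 1)), Finset.mem_product.2 ⟨ht' _, ht' _⟩, rfl⟩
    | false =>
      exact Finset.mem_image.2 ⟨(t (j + 1), t j), Finset.mem_product.2 ⟨ht' _, ht' _⟩, rfl⟩
  refine (Finset.card_le_card h1).trans ?_
  rw [Finset.card_product, Finset.card_product, Finset.card_product, Finset.card_product,
    Fintype.card_piFinset, Fintype.card_piFinset, Fintype.card_piFinset]
  simp only [Finset.prod_const, Finset.card_univ, Fintype.card_fin, Fintype.card_prod,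
    Fintype.card_bool]
  have c1 := card_t1 I (ext S)
  have c2 := card_t1' I (ext S)
  have c3 := card_t2 I (ext S ×ˢ ext S)
  rw [← hi] at c1 c2 c3
  have c4 : i * i + 1 ≤ (i + 1) ^ 2 := by nlinarith
  have c5 : (i * i + 1) ^ 3 ≤ (i + 1) ^ 6 := by
    calc (i * i + 1) ^ 3 ≤ ((i + 1) ^ 2) ^ 3 := Nat.pow_le_pow_left c4 3
      _ = (i + 1) ^ 6 := by ring
  have d1 : ((ext S).image (t1 I)).card ^ 3 ≤ ((i + 1) ^ 6) ^ 3 :=
    Nat.pow_le_pow_left (c1.trans c5) 3
  have d2 : ((ext S).image (t1' I)).card ^ 3 ≤ ((i + 1) ^ 6) ^ 3 :=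
    Nat.pow_le_pow_left (c2.trans c5) 3
  have d3 : ((ext S ×ˢ ext S).image (fun x => t2 I x.1 x.2)).card ^ (3 * 2) ≤
      ((i + 1) ^ 3) ^ (3 * 2) := Nat.pow_le_pow_left c3 _
  calc _ ≤ (((i + 1) ^ 6) ^ 3 * (((i + 1) ^ 6) ^ 3 * (((i + 1) ^ 3) ^ (3 * 2) * 2))) *
        (2 * (2 * 2)) :=
        Nat.mul_le_mul_right _ (Nat.mul_le_mul d1 (Nat.mul_le_mul d2 (Nat.mul_le_mul_right 2 d3)))
    _ = 16 * (i + 1) ^ 54 := by ring

/-- `S'` contains, with each triple of extreme points of `S`, a triple of the same type -/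
def Rep (S S' : Finset (ℝ × ℝ)) : Prop :=
  ∀ t : Fin 3 → ℝ × ℝ, (∀ i, t i ∈ ext S) → ∃ t' : Fin 3 → ℝ × ℝ,
    (∀ i, t' i ∈ ext S ∧ t' i ∈ S') ∧ (∀ i j, (t i = t j ↔ t' i = t' j)) ∧ Eqv (inner S) t t'

/-- there are small sets with representatives of all types -/
theorem exists_rep (S : Finset (ℝ × ℝ)) : ∃ S' : Finset (ℝ × ℝ), inner S ⊆ S' ∧ S' ⊆ S ∧
    Rep S S' ∧ S'.card ≤ 49 * ((inner S).card + 1) ^ 54 := by
  classical
  set I := inner S with hI
  set i := I.card with hi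
  have hi1 : i + 1 ≤ (i + 1) ^ 54 := Nat.le_self_pow (by norm_num) _
  have hrep : ∀ τ ∈ (Trs S).image (Dat I), ∃ t ∈ Trs S, Dat I t = τ := fun τ hτ =>
    Finset.mem_image.1 hτ
  choose! rep hrep1 hrep2 using hrep
  set S' : Finset (ℝ × ℝ) := I ∪ ((Trs S).image (Dat I)).biUnion
    (fun τ => Finset.univ.image (rep τ)) with hS'
  have hsub : S' ⊆ S := by
    intro p hp
    rw [hS', Finset.mem_union, Finset.mem_biUnion] at hp
    rcases hp with hp | ⟨τ, hτ, hp⟩
    · exact inner_sub S hp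
    · obtain ⟨j, -, rfl⟩ := Finset.mem_image.1 hp
      exact ext_sub S ((mem_Trs.1 (hrep1 τ hτ)) j)
  refine ⟨S', Finset.subset_union_left, hsub, ?_, ?_⟩
  · intro t ht
    have htau : Dat I t ∈ (Trs S).image (Dat I) := Finset.mem_image_of_mem _ (mem_Trs.2 ht)
    have ht' := mem_Trs.1 (hrep1 _ htau)
    have e := (hrep2 _ htau).symm
    have e1 : Ty I t = Ty I (rep (Dat I t)) := congrArg Prod.fst e
    have e2 : Pat t = Pat (rep (Dat I t)) := congrArg Prod.snd e
    refine ⟨rep (Dat I t), fun j => ⟨ht' j, ?_⟩, eq_of_Pat e2, eqv_of_Ty e1⟩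
    rw [hS', Finset.mem_union, Finset.mem_biUnion]
    exact Or.inr ⟨_, htau, Finset.mem_image_of_mem _ (Finset.mem_univ _)⟩
  · have h1 : (((Trs S).image (Dat I)).biUnion (fun τ => Finset.univ.image (rep τ))).card ≤
        ((Trs S).image (Dat I)).card * 3 := by
      refine Finset.card_biUnion_le_card_mul _ _ _ (fun τ _ => ?_)
      refine Finset.card_image_le.trans ?_
      rw [Finset.card_univ, Fintype.card_fin]
    have h2 := card_types S
    rw [← hI, ← hi] at h2
    have h3 := Finset.card_union_le I (((Trs S).image (Dat I)).biUnion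
      (fun τ => Finset.univ.image (rep τ)))
    rw [← hS', ← hi] at h3
    omega

/-- if there are at most two extreme points they are all kept -/
theorem ext_sub_of_rep {S S' : Finset (ℝ × ℝ)} (h : Rep S S') (hc : (ext S).card ≤ 2) :
    ext S ⊆ S' := by
  classical
  intro a ha
  rcases Nat.lt_or_ge (ext S).card 2 with h1 | h1
  · obtain ⟨t', h2, -, -⟩ := h (fun _ => a) (fun _ => ha)
    have h3 := h2 0
    have h4 : t' 0 = a := Finset.card_le_one.1 (by omega) _ h3.1 _ ha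
    rw [← h4]
    exact h3.2
  · obtain ⟨x, y, hxy, hE⟩ := Finset.card_eq_two.1 (le_antisymm hc h1)
    have hx : x ∈ ext S := by rw [hE]; simp
    have hy : y ∈ ext S := by rw [hE]; simp
    obtain ⟨t', h2, h3, -⟩ := h ![x, y, y] (fun i => by
      fin_cases i
      · exact hx
      · exact hy
      · exact hy)
    have h4 : t' 0 ≠ t' 1 := by
      intro e
      exact hxy ((h3 0 1).2 e)
    have h5 := h2 0
    have h6 := h2 1
    have h7 : a = t' 0 ∨ a = t' 1 := by
      have e0 := h5.1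
      have e1 := h6.1
      rw [hE] at e0 e1 ha
      simp only [Finset.mem_insert, Finset.mem_singleton] at e0 e1 ha
      rcases e0 with e0 | e0 <;> rcases e1 with e1 | e1 <;> rcases ha with e2 | e2
      · exact absurd (e0.trans e1.symm) h4
      · exact absurd (e0.trans e1.symm) h4
      · exact Or.inl (e2.trans e0.symm)
      · exact Or.inr (e2.trans e1.symm)
      · exact Or.inr (e2.trans e1.symm)
      · exact Or.inl (e2.trans e0.symm)
      · exact absurd (e0.trans e1.symm) h4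
      · exact absurd (e0.trans e1.symm) h4
    rcases h7 with rfl | rfl
    · exact h5.2
    · exact h6.2

/-- **Kernel.** The points which are not extreme together with representatives of the triples of
extreme points have the same universality. -/
theorem universal_of_rep {S S' : Finset (ℝ × ℝ)} (hI : inner S ⊆ S') (hsub : S' ⊆ S)
    (hR : Rep S S') (n : ℕ) : UPS.IsUniversal S' n ↔ UPS.IsUniversal S n := by
  classical
  rcases Nat.lt_or_ge (ext S).card 3 with hE | hE
  · have h1 := ext_sub_of_rep hR (by omega)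
    have h2 : S' = S := by
      refine Finset.Subset.antisymm hsub ?_
      intro p hp
      rcases mem_ext_or hp with h | h
      · exact h1 h
      · exact hI h
    rw [h2]
  · constructor
    · intro h k hk G hG
      obtain ⟨φ, h1, h2⟩ := h k hk G hG
      exact ⟨φ, h1, fun v => hsub (h2 v)⟩
    · intro h k hk G hG
      obtain ⟨φ, h1, h2, h3⟩ := (universal_iff S n).1 h k hk G hG
      set X : Finset (Fin k) := Finset.univ.filter (fun v => φ v ∈ ext S) with hX
      have hXc : X.card ≤ 3 := h3 X (fun v hv => (Finset.mem_filter.1 hv).2)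
      have hXi : X.image φ ⊆ ext S := by
        intro p hp
        obtain ⟨v, hv, rfl⟩ := Finset.mem_image.1 hp
        exact (Finset.mem_filter.1 hv).2
      obtain ⟨Y, hY1, hY2, hY3⟩ := Finset.exists_subsuperset_card_eq hXi
        (Finset.card_image_le.trans hXc) hE
      have e : Y ≃ Fin 3 := Y.equivFinOfCardEq hY3
      set t : Fin 3 → ℝ × ℝ := fun j => (e.symm j : ℝ × ℝ) with ht
      have htE : ETr S t := by
        refine ⟨?_, fun j => hY2 (e.symm j).2⟩
        intro j l hjl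
        exact e.symm.injective (Subtype.ext hjl)
      obtain ⟨t', g1, g2, g3⟩ := hR t htE.ext
      have ht' : ETr S t' := ⟨fun j l hjl => htE.inj ((g2 j l).2 hjl), fun j => (g1 j).1⟩
      have hcor : ∀ v, ∃ p, Cor (inner S) t t' (φ v) p ∧ p ∈ S' := by
        intro v
        rcases mem_ext_or (h2 v) with hv | hv
        · have hvY : φ v ∈ Y := hY1 (Finset.mem_image_of_mem _
            (Finset.mem_filter.2 ⟨Finset.mem_univ _, hv⟩))
          refine ⟨t' (e ⟨φ v, hvY⟩), Or.inr ⟨e ⟨φ v, hvY⟩, ?_, rfl⟩, (g1 _).2⟩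
          simp only [ht, Equiv.symm_apply_apply]
        · exact ⟨φ v, Or.inl ⟨hv, rfl⟩, hI hv⟩
      choose φ' hφ'1 hφ'2 using hcor
      exact ⟨φ', transport htE ht' g3 h1 hφ'1, hφ'2⟩

end P2020ba
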