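import Pool.Agent.Lib.P2020ba.Geo
import Pool.Agent.Lib.UPN.Final

/-!
# Every planar graph on `k` vertices lies in one with `3k - 6` edges (MP_2020ba_lc)
-/

set_option autoImplicit false

namespace P2020ba

open UPN F059 RecAux

/-! ### The construction with a given outer triangle -/

theorem bld_of_sph3 {V : Type} [DecidableEq V] {T : Finset (Finset V)} (hT : Sph T) {u v w : V}
    (huv : u ≠ v) (huw : u ≠ w) (hvw : v ≠ w) (ho : {u, v, w} ∈ T) :
    ∃ (stk R ord : List V) (E : Set (Sym2 V)), Bld stk R ord E ∧ stk ++ R = [u, v, w] ∧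
      (∀ z ∈ ord, z ∈ vs T) ∧ ∀ a b, a ≠ b → dg T a b ≠ 0 → s(a, b) ∈ E := by
  set o : Finset V := {u, v, w} with ho'
  have hmemo : ∀ a b, a ≠ b → ((a ∈ o ∧ b ∈ o) ↔ s(a, b) ∈ cy [u, v, w]) := by
    intro a b hab
    simp only [ho', Finset.mem_insert, Finset.mem_singleton, cy, es, List.cons_append,
      List.nil_append, List.mem_cons, List.not_mem_nil, or_false, Sym2.eq_iff]
    constructor
    · rintro ⟨rfl | rfl | rfl, rfl | rfl | rfl⟩ <;> first | exact (hab rfl).elim | simp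
    · rintro ((⟨rfl, rfl⟩ | ⟨rfl, rfl⟩) | (⟨rfl, rfl⟩ | ⟨rfl, rfl⟩) | (⟨rfl, rfl⟩ | ⟨rfl, rfl⟩)) <;>
        simp
  have hdg : ∀ a b, a ≠ b → (a ∈ o ∧ b ∈ o) → dg T a b = 2 := by
    intro a b hab h
    have h0 : dg T a b ≠ 0 := dg_ne_zero.2 ⟨o, ho, h⟩
    rcases hT.two a b hab with h1 | h1
    · exact (h0 h1).elim
    · exact h1
  have hBd : Bd T o (T.erase o) (u :: ([v] ++ [w])) := by
    refine ⟨by simp [huv, huw, hvw], by simp, Finset.erase_subset _ _, by simp, ?_⟩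
    intro a b hab
    show dg (T.erase o) a b = 1 ↔ s(a, b) ∈ cy [u, v, w]
    rw [← hmemo a b hab, dg_erase T ho]
    by_cases h : a ∈ o ∧ b ∈ o
    · rw [if_pos h, hdg a b hab h]
      exact ⟨fun _ => h, fun _ => rfl⟩
    · rw [if_neg h]
      rcases hT.two a b hab with h1 | h1
      · rw [h1]
        exact ⟨fun h2 => by omega, fun h2 => (h h2).elim⟩
      · rw [h1]
        exact ⟨fun h2 => by omega, fun h2 => (h h2).elim⟩
  obtain ⟨l0, L0, B', R', ord', E', e0, hB', hBR', hord', -, hdg'⟩ :=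
    recn hT ho _ (T.erase o) le_rfl u w [v] hBd [] [w] [] [u, w] [] {s(u, w)}
      (Bld.base u w huw) rfl rfl (by
        intro z _ hz
        simpa using hz)
  simp only [List.cons.injEq] at e0
  obtain ⟨rfl, rfl⟩ := e0
  refine ⟨_, R', ord', E', hB', ?_, ?_, ?_⟩
  · simp only [List.nil_append, List.cons_append] at hBR' ⊢
    rw [hBR']
  · intro z hz
    rcases (hord' z).1 hz with h | h
    · rw [mem_vs]
      refine ⟨o, ho, ?_⟩
      simp only [List.mem_cons, List.not_mem_nil, or_false] at h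
      rcases h with rfl | rfl <;> simp [ho']
    · exact vs_mono (Finset.erase_subset _ _) h
  · intro a b hab hd
    apply hdg' a b hab
    rw [dg_erase T ho]
    rcases hT.two a b hab with h1 | h1
    · exact (hd h1).elim
    · rw [h1]
      split_ifs <;> omega

/-! ### An outer point is not in an inner triangle -/

theorem outer_not_in {o1 o2 o3 a b c : F059.Pt} (hD : 0 < ori o1 o2 o3)
    (ha : 0 ≤ ori o1 o2 a ∧ 0 ≤ ori o3 o1 a ∧ (0 < ori o1 o2 a ∨ 0 < ori o3 o1 a))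
    (hb : 0 ≤ ori o1 o2 b ∧ 0 ≤ ori o3 o1 b ∧ (0 < ori o1 o2 b ∨ 0 < ori o3 o1 b))
    (hc : 0 ≤ ori o1 o2 c ∧ 0 ≤ ori o3 o1 c ∧ (0 < ori o1 o2 c ∨ 0 < ori o3 o1 c))
    (hn : ori a b c ≠ 0) : ¬ InT a b c o1 := by
  intro h
  have key : ∀ x : F059.Pt, 0 ≤ ori o1 o2 x ∧ 0 ≤ ori o3 o1 x ∧
      (0 < ori o1 o2 x ∨ 0 < ori o3 o1 x) → ori o2 o3 x < ori o2 o3 o1 := by
    rintro x ⟨h1, h2, h3⟩
    have h4 := bary_sum o1 o2 o3 x
    have h5 : ori o2 o3 o1 = ori o1 o2 o3 := ori_cyc o1 o2 o3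
    rw [h5]
    rcases h3 with h3 | h3 <;> linarith
  have ka := key a ha
  have kb := key b hb
  have kc := key c hc
  have e1 := bary a b c o2 o3 o1
  have e2 := bary_sum a b c o1
  rcases h with ⟨h1, h2, h3⟩ | ⟨h1, h2, h3⟩
  · have s0 : 0 < ori a b c := lt_of_le_of_ne (by linarith) hn.symm
    have t1 := mul_le_mul_of_nonneg_left ka.le h2
    have t2 := mul_le_mul_of_nonneg_left kb.le h3
    have t3 := mul_le_mul_of_nonneg_left kc.le h1
    have t4 : ori a b c * ori o2 o3 o1 = ori b c o1 * ori o2 o3 o1 + ori c a o1 * ori o2 o3 o1 +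
        ori a b o1 * ori o2 o3 o1 := by rw [← e2]; ring
    -- all are equalities
    have u1 : ori b c o1 * (ori o2 o3 o1 - ori o2 o3 a) = 0 := by nlinarith
    have u2 : ori c a o1 * (ori o2 o3 o1 - ori o2 o3 b) = 0 := by nlinarith
    have u3 : ori a b o1 * (ori o2 o3 o1 - ori o2 o3 c) = 0 := by nlinarith
    have v1 := (mul_eq_zero.1 u1).resolve_right (by linarith)
    have v2 := (mul_eq_zero.1 u2).resolve_right (by linarith)
    have v3 := (mul_eq_zero.1 u3).resolve_right (by linarith)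
    linarith
  · have s0 : ori a b c < 0 := lt_of_le_of_ne (by linarith) hn
    have t1 := mul_le_mul_of_nonpos_left ka.le h2
    have t2 := mul_le_mul_of_nonpos_left kb.le h3
    have t3 := mul_le_mul_of_nonpos_left kc.le h1
    have t4 : ori a b c * ori o2 o3 o1 = ori b c o1 * ori o2 o3 o1 + ori c a o1 * ori o2 o3 o1 +
        ori a b o1 * ori o2 o3 o1 := by rw [← e2]; ring
    have u1 : ori b c o1 * (ori o2 o3 o1 - ori o2 o3 a) = 0 := by nlinarith
    have u2 : ori c a o1 * (ori o2 o3 o1 - ori o2 o3 b) = 0 := by nlinarith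
    have u3 : ori a b o1 * (ori o2 o3 o1 - ori o2 o3 c) = 0 := by nlinarith
    have v1 := (mul_eq_zero.1 u1).resolve_right (by linarith)
    have v2 := (mul_eq_zero.1 u2).resolve_right (by linarith)
    have v3 := (mul_eq_zero.1 u3).resolve_right (by linarith)
    linarith

/-- an empty triangle of the inner points is a triangle of the sphere -/
theorem exists_inner_tri {k : ℕ} (hk : 3 ≤ k) {G : SimpleGraph (Fin k)} (hG : UPS.IsPlanar G) :
    ∃ (φ : Fin k → ℝ × ℝ) (P : Finset F059.Pt) (A : Finset (Sym2 F059.Pt))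
      (o1 o2 o3 : F059.Pt) (iu iv iw : Fin k),
      Function.Injective φ ∧ Cfg P A o1 o2 o3 ∧ (∀ i, φ i ∈ P) ∧
      (∀ i j, G.Adj i j → s(φ i, φ j) ∈ A) ∧ ET P A (φ iu) (φ iv) (φ iw) := by
  classical
  obtain ⟨φ, hφ, hgp⟩ := exists_genpos hG
  have hS : GenPos (Finset.univ.image φ) := by
    intro p hp q hq r hr h1 h2 h3
    obtain ⟨i, -, rfl⟩ := Finset.mem_image.1 hp
    obtain ⟨j, -, rfl⟩ := Finset.mem_image.1 hq
    obtain ⟨l, -, rfl⟩ := Finset.mem_image.1 hr
    exact hgp i j l (fun h => h1 (by rw [h])) (fun h => h2 (by rw [h])) (fun h => h3 (by rw [h]))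
  obtain ⟨o1, o2, o3, h1, h2, h3, hpos, hP, hin⟩ := exists_outer _ hS
  set S0 : Finset F059.Pt := Finset.univ.image φ with hS0
  have hS0card : S0.card = k := by
    rw [hS0, Finset.card_image_of_injective _ hφ.1, Finset.card_univ, Fintype.card_fin]
  -- the triangulation of the inner points
  set F0 : Finset (Sym2 F059.Pt) := (Finset.univ.filter
    (fun x : Fin k × Fin k => G.Adj x.1 x.2)).image (fun x => s(φ x.1, φ x.2)) with hF0
  have hm0 : ∀ i, φ i ∈ S0 := fun i => Finset.mem_image_of_mem _ (Finset.mem_univ i)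
  have hsub0 : F0 ⊆ Seg S0 := by
    intro e he
    obtain ⟨⟨i, j⟩, hij, rfl⟩ := Finset.mem_image.1 he
    have hadj : G.Adj i j := (Finset.mem_filter.1 hij).2
    exact mem_Seg.2 ⟨hm0 i, hm0 j, fun h => hadj.ne (hφ.1 h)⟩
  have hpl0 : Plane F0 := by
    intro e he f hf
    obtain ⟨⟨i, j⟩, hij, rfl⟩ := Finset.mem_image.1 he
    obtain ⟨⟨i', j'⟩, hij', rfl⟩ := Finset.mem_image.1 hf
    rw [SCr_mk]
    exact not_Cr_of_drawing hφ (Finset.mem_filter.1 hij).2 (Finset.mem_filter.1 hij').2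
  obtain ⟨A0, hA0, hFA0⟩ := exists_tri hsub0 hpl0
  -- an empty triangle
  obtain ⟨a, w, c, hET0⟩ : ∃ a w c, ET S0 A0 a w c := by
    obtain ⟨a, ha⟩ : S0.Nonempty := Finset.card_pos.1 (by omega)
    obtain ⟨q, hq, hqa⟩ := Finset.exists_mem_ne (by omega : 1 < S0.card) a
    obtain ⟨w, hw⟩ := exists_edge hS hA0 ha hq hqa
    have h4 : ({a, w} : Finset F059.Pt).card < S0.card :=
      lt_of_le_of_lt Finset.card_le_two (by omega)
    obtain ⟨p, hp, hn⟩ := Finset.exists_mem_notMem_of_card_lt_card h4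
    rw [Finset.mem_insert, Finset.mem_singleton] at hn
    push Not at hn
    obtain ⟨c, hc, -⟩ := local_side hS hA0 hw hp hn.1 hn.2
    exact ⟨a, w, c, hc⟩
  -- the big point set
  set P : Finset F059.Pt := insert o1 (insert o2 (insert o3 S0)) with hPdef
  have hSP : S0 ⊆ P := fun p hp =>
    Finset.mem_insert_of_mem (Finset.mem_insert_of_mem (Finset.mem_insert_of_mem hp))
  have m1 : o1 ∈ P := Finset.mem_insert_self _ _
  have m2 : o2 ∈ P := Finset.mem_insert_of_mem (Finset.mem_insert_self _ _)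
  have m3 : o3 ∈ P :=
    Finset.mem_insert_of_mem (Finset.mem_insert_of_mem (Finset.mem_insert_self _ _))
  have o12 : o1 ≠ o2 := by
    rintro rfl; rw [ori_self_same] at hpos; exact lt_irrefl _ hpos
  have o13 : o1 ≠ o3 := by
    rintro rfl; rw [ori_self_left] at hpos; exact lt_irrefl _ hpos
  have o23 : o2 ≠ o3 := by
    rintro rfl; rw [ori_self_right] at hpos; exact lt_irrefl _ hpos
  have hcard : 4 ≤ P.card := by
    have h5 : (insert o3 S0).card = k + 1 := by
      rw [Finset.card_insert_of_notMem h3, hS0card]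
    have h6 : insert o3 S0 ⊆ P := fun p hp =>
      Finset.mem_insert_of_mem (Finset.mem_insert_of_mem hp)
    have := Finset.card_le_card h6
    omega
  have hA0P : A0 ⊆ Seg P := by
    intro e he
    induction e using Sym2.ind with
    | _ x y =>
      obtain ⟨hx, hy, hxy⟩ := mem_Seg.1 (hA0.1 he)
      exact mem_Seg.2 ⟨hSP hx, hSP hy, hxy⟩
  obtain ⟨A, hA, hA0A⟩ := exists_tri hA0P hA0.2.1
  have hinP : ∀ p ∈ P, InT o1 o2 o3 p := by
    intro p hp
    rw [hPdef, Finset.mem_insert, Finset.mem_insert, Finset.mem_insert] at hp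
    rcases hp with rfl | rfl | rfl | hp
    · left
      rw [ori_self_left, ori_self_right, ori_cyc]
      exact ⟨le_refl _, hpos.le, le_refl _⟩
    · left
      rw [ori_self_right, ori_self_left]
      refine ⟨le_refl _, le_refl _, ?_⟩
      rw [← ori_cyc]; exact hpos.le
    · left
      rw [ori_self_right, ori_self_left]
      exact ⟨hpos.le, le_refl _, le_refl _⟩
    · exact hin p hp
  have hC : Cfg P A o1 o2 o3 := ⟨hP, hA, m1, m2, m3, hpos, hinP, hcard⟩
  -- strict positions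
  have hst : ∀ p ∈ S0, 0 < ori o1 o2 p ∧ 0 < ori o2 o3 p ∧ 0 < ori o3 o1 p := by
    intro p hp
    obtain ⟨i1, i2, i3⟩ := InT_left hpos (hin p hp)
    have hpP := hSP hp
    have n1 : o1 ≠ p := fun h => h1 (h ▸ hp)
    have n2 : o2 ≠ p := fun h => h2 (h ▸ hp)
    have n3 : o3 ≠ p := fun h => h3 (h ▸ hp)
    exact ⟨lt_of_le_of_ne i1 (hP o1 m1 o2 m2 p hpP o12 n1 n2).symm,
      lt_of_le_of_ne i2 (hP o2 m2 o3 m3 p hpP o23 n2 n3).symm,
      lt_of_le_of_ne i3 (hP o3 m3 o1 m1 p hpP o13.symm n3 n1).symm⟩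
  have hEm : Em P a w c := by
    refine ⟨hET0.em.1, ?_⟩
    intro p hp hT
    rw [hPdef, Finset.mem_insert, Finset.mem_insert, Finset.mem_insert] at hp
    obtain ⟨a1, a2, a3⟩ := hst a hET0.ha
    obtain ⟨b1, b2, b3⟩ := hst w hET0.hb
    obtain ⟨c1, c2, c3⟩ := hst c hET0.hc
    have pos2 : 0 < ori o2 o3 o1 := by rw [ori_cyc]; exact hpos
    have pos3 : 0 < ori o3 o1 o2 := by rw [ori_cyc]; exact pos2
    rcases hp with rfl | rfl | rfl | hp
    · exact absurd hT (outer_not_in hpos ⟨a1.le, a3.le, Or.inl a1⟩ ⟨b1.le, b3.le, Or.inl b1⟩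
        ⟨c1.le, c3.le, Or.inl c1⟩ hET0.em.1)
    · exact absurd hT (outer_not_in pos2 ⟨a2.le, a1.le, Or.inl a2⟩ ⟨b2.le, b1.le, Or.inl b2⟩
        ⟨c2.le, c1.le, Or.inl c2⟩ hET0.em.1)
    · exact absurd hT (outer_not_in pos3 ⟨a3.le, a2.le, Or.inl a3⟩ ⟨b3.le, b2.le, Or.inl b3⟩
        ⟨c3.le, c2.le, Or.inl c3⟩ hET0.em.1)
    · exact hET0.em.2 p hp hT
  have hET : ET P A a w c := ⟨hSP hET0.ha, hSP hET0.hb, hSP hET0.hc, hEm, hA0A hET0.ab,
    hA0A hET0.bc, hA0A hET0.ca⟩
  obtain ⟨iu, -, hiu⟩ := Finset.mem_image.1 hET0.ha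
  obtain ⟨iv, -, hiv⟩ := Finset.mem_image.1 hET0.hb
  obtain ⟨iw, -, hiw⟩ := Finset.mem_image.1 hET0.hc
  refine ⟨φ, P, A, o1, o2, o3, iu, iv, iw, hφ.1, hC, fun i => hSP (hm0 i), ?_, ?_⟩
  · intro i j hij
    exact hA0A (hFA0 (Finset.mem_image.2
      ⟨(i, j), Finset.mem_filter.2 ⟨Finset.mem_univ _, hij⟩, rfl⟩))
  · rw [hiu, hiv, hiw]
    exact hET

open Classical in
/-- the number of edges -/
noncomputable def ecard {k : ℕ} (G : SimpleGraph (Fin k)) : ℕ :=
  (Finset.univ.filter (fun e : Sym2 (Fin k) => e ∈ G.edgeSet)).card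

/-- **Every planar graph on `k ≥ 4` vertices is contained in a planar graph with `3k - 6`
edges.** -/
theorem exists_max {k : ℕ} (hk : 4 ≤ k) {G : SimpleGraph (Fin k)} (hG : UPS.IsPlanar G) :
    ∃ G' : SimpleGraph (Fin k), G ≤ G' ∧ UPS.IsPlanar G' ∧ 3 * k ≤ ecard G' + 6 := by
  classical
  obtain ⟨φ, P, A, o1, o2, o3, iu, iv, iw, hinj, hC, hmem, hadj, hET⟩ :=
    exists_inner_tri (by omega) hG
  obtain ⟨nuv, nvw, nuw⟩ := ET_ne hET
  have hT : ({φ iu, φ iv, φ iw} : Finset F059.Pt) ∈ TT P A o1 o2 o3 := by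
    refine Finset.mem_filter.2 ⟨Finset.mem_powersetCard.2 ⟨?_, ?_⟩,
      Or.inl ⟨_, _, _, rfl, hET⟩⟩
    · intro x hx
      rw [Finset.mem_insert, Finset.mem_insert, Finset.mem_singleton] at hx
      rcases hx with rfl | rfl | rfl
      · exact hmem _
      · exact hmem _
      · exact hmem _
    · rw [Finset.card_insert_of_notMem, Finset.card_pair nvw]
      rw [Finset.mem_insert, Finset.mem_singleton]
      push Not
      exact ⟨nuv, nuw⟩
  obtain ⟨stk, R, ord, E, hB, hc, -, hE⟩ := bld_of_sph3 hC.sph nuv nuw nvw hT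
  obtain ⟨px, py, K, h⟩ := exists_crd hB hc
  -- all the vertices are in `ord`
  have o12 : o1 ≠ o2 := by
    rintro rfl
    have := hC.pos
    rw [ori_self_same] at this; exact lt_irrefl _ this
  have hφo : ∀ i, φ i ∈ ord := by
    intro i
    have hex : ∃ p ∈ P, p ≠ φ i := by
      by_cases h : o1 = φ i
      · exact ⟨o2, hC.m2, fun h' => o12 (h.trans h'.symm)⟩
      · exact ⟨o1, hC.m1, h⟩
    obtain ⟨p, hpP, hpi⟩ := hex
    obtain ⟨w, hw⟩ := exists_edge hC.gp hC.tri (hmem i) hpP hpi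
    have hne : φ i ≠ w := (mem_Seg.1 (hC.tri.1 hw)).2.2
    have h1 := hE (φ i) w hne (by rw [hC.dg_of_edge hw]; norm_num)
    exact (h.mem _ _ h1).2.1
  set Ψ : Fin k → ℝ × ℝ := fun i => UPN.pt px py (φ i) with hΨ
  have hΨinj : Function.Injective Ψ := by
    intro i j hij
    have h1 : px (φ i) = px (φ j) := by
      have := congrArg Prod.fst hij
      simp only [hΨ, UPN.pt] at this
      exact_mod_cast this
    exact hinj (h.inj _ (hφo i) _ (hφo j) h1)
  have hΨgp : ∀ i j l, i ≠ j → i ≠ l → j ≠ l → ori (Ψ i) (Ψ j) (Ψ l) ≠ 0 := by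
    intro i j l hij hil hjl
    exact h.gp (hφo i) (hφo j) (hφo l) (hinj.ne hij) (hinj.ne hil) (hinj.ne hjl)
  -- the drawing of `G`
  have hEadj : ∀ i j, G.Adj i j → s(φ i, φ j) ∈ E := by
    intro i j hij
    have h1 := hadj i j hij
    exact hE _ _ (fun h => hij.ne (hinj h)) (by rw [hC.dg_of_edge h1]; norm_num)
  have hdr : UPS.IsDrawing G Ψ := by
    refine ⟨hΨinj, ?_, ?_⟩
    · intro i j i' j' hij hij' hne x hx hx'
      have hne' : s(φ i, φ j) ≠ s(φ i', φ j') := by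
        intro h
        apply hne
        rw [Sym2.eq_iff] at h ⊢
        rcases h with ⟨h1, h2⟩ | ⟨h1, h2⟩
        · exact Or.inl ⟨hinj h1, hinj h2⟩
        · exact Or.inr ⟨hinj h1, hinj h2⟩
      obtain ⟨v, hv1, hv2, hv3⟩ := h.e1 _ _ _ _ (hEadj i j hij) (hEadj i' j' hij') hne' x hx hx'
      rcases hv1 with rfl | rfl
      · refine ⟨i, Or.inl rfl, ?_, hv3⟩
        rcases hv2 with h | h
        · exact Or.inl (hinj h)
        · exact Or.inr (hinj h)
      · refine ⟨j, Or.inr rfl, ?_, hv3⟩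
        rcases hv2 with h | h
        · exact Or.inl (hinj h)
        · exact Or.inr (hinj h)
    · intro v i j hij hv
      rcases h.v1 _ (hφo v) _ _ (hEadj i j hij) hv with h | h
      · exact Or.inl (hinj h)
      · exact Or.inr (hinj h)
  -- the new configuration
  set P' : Finset F059.Pt := Finset.univ.image Ψ with hP'
  have hmP : ∀ i, Ψ i ∈ P' := fun i => Finset.mem_image_of_mem _ (Finset.mem_univ i)
  have hP'card : P'.card = k := by
    rw [hP', Finset.card_image_of_injective _ hΨinj, Finset.card_univ, Fintype.card_fin]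
  have hgp' : GenPos P' := by
    intro p hp q hq r hr h1 h2 h3
    obtain ⟨i, -, rfl⟩ := Finset.mem_image.1 hp
    obtain ⟨j, -, rfl⟩ := Finset.mem_image.1 hq
    obtain ⟨l, -, rfl⟩ := Finset.mem_image.1 hr
    exact hΨgp i j l (fun h => h1 (by rw [h])) (fun h => h2 (by rw [h]))
      (fun h => h3 (by rw [h]))
  set F0 : Finset (Sym2 F059.Pt) := (Finset.univ.filter
    (fun x : Fin k × Fin k => G.Adj x.1 x.2)).image (fun x => s(Ψ x.1, Ψ x.2)) with hF0
  have hsub : F0 ⊆ Seg P' := by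
    intro e he
    obtain ⟨⟨i, j⟩, hij, rfl⟩ := Finset.mem_image.1 he
    have hadj : G.Adj i j := (Finset.mem_filter.1 hij).2
    exact mem_Seg.2 ⟨hmP i, hmP j, fun h => hadj.ne (hΨinj h)⟩
  have hpl : Plane F0 := by
    intro e he f hf
    obtain ⟨⟨i, j⟩, hij, rfl⟩ := Finset.mem_image.1 he
    obtain ⟨⟨i', j'⟩, hij', rfl⟩ := Finset.mem_image.1 hf
    rw [SCr_mk]
    exact not_Cr_of_drawing hdr (Finset.mem_filter.1 hij).2 (Finset.mem_filter.1 hij').2
  obtain ⟨A', hA', hFA'⟩ := exists_tri hsub hpl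
  have hpt := h.pos_tri
  have hC' : Cfg P' A' (Ψ iu) (Ψ iw) (Ψ iv) := by
    refine ⟨hgp', hA', hmP _, hmP _, hmP _, hpt, ?_, by omega⟩
    intro p hp
    obtain ⟨i, -, rfl⟩ := Finset.mem_image.1 hp
    by_cases h1 : φ i = φ iu
    · rw [hinj h1]
      left
      rw [ori_self_left, ori_self_right, ori_cyc]
      exact ⟨le_refl _, hpt.le, le_refl _⟩
    by_cases h2 : φ i = φ iw
    · rw [hinj h2]
      left
      rw [ori_self_right, ori_self_left]
      refine ⟨le_refl _, le_refl _, ?_⟩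
      rw [← ori_cyc]; exact hpt.le
    by_cases h3 : φ i = φ iv
    · rw [hinj h3]
      left
      rw [ori_self_right, ori_self_left]
      exact ⟨hpt.le, le_refl _, le_refl _⟩
    obtain ⟨e1, e2, e3⟩ := h.inside (hφo i) h1 h3 h2
    exact Or.inl ⟨e1.le, e2.le, e3.le⟩
  have hlow := euler_lower hC'
  rw [hP'card] at hlow
  -- the graph
  set G' : SimpleGraph (Fin k) :=
    { Adj := fun i j => s(Ψ i, Ψ j) ∈ A'
      symm := ⟨fun i j hij => by rw [Sym2.eq_swap]; exact hij⟩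
      loopless := ⟨fun i hi => (mem_Seg.1 (hA'.1 hi)).2.2 rfl⟩ } with hG'
  refine ⟨G', ?_, ⟨Ψ, drawing_of_plane hΨinj hΨgp ?_⟩, ?_⟩
  · intro i j hij
    exact hFA' (Finset.mem_image.2 ⟨(i, j), Finset.mem_filter.2 ⟨Finset.mem_univ _, hij⟩, rfl⟩)
  · intro a b c d hab hcd hcr
    exact hA'.2.1 _ hab _ hcd (SCr_mk.2 hcr)
  · have h1 : A'.card ≤ ecard G' := by
      have h2 : A' ⊆ (Finset.univ.filter (fun e : Sym2 (Fin k) => e ∈ G'.edgeSet)).image
          (Sym2.map Ψ) := by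
        intro e he
        induction e using Sym2.ind with
        | _ x y =>
          obtain ⟨hx, hy, hxy⟩ := mem_Seg.1 (hA'.1 he)
          obtain ⟨i, -, rfl⟩ := Finset.mem_image.1 hx
          obtain ⟨j, -, rfl⟩ := Finset.mem_image.1 hy
          refine Finset.mem_image.2 ⟨s(i, j), Finset.mem_filter.2 ⟨Finset.mem_univ _, ?_⟩, rfl⟩
          exact he
      refine (Finset.card_le_card h2).trans (Finset.card_image_le.trans (le_of_eq ?_))
      unfold ecard
      congr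
    omega

end P2020ba
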