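import Pool.Agent.Lib.P2020ba.Max

/-!
# A drawing of a graph with `3k - 6` edges uses at most three extreme points (MP_2020ba_lc)
-/

set_option autoImplicit false

namespace P2020ba

open UPN F059

open Classical in
/-- the extreme points of the configuration: the points of `S` which are not in the convex hull of
the other points of `S` -/
noncomputable def ext (S : Finset (ℝ × ℝ)) : Finset (ℝ × ℝ) :=
  S.filter (fun p => p ∉ convexHull ℝ ((S.erase p : Finset (ℝ × ℝ)) : Set (ℝ × ℝ)))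

open Classical in
/-- the other points of the configuration -/
noncomputable def inner (S : Finset (ℝ × ℝ)) : Finset (ℝ × ℝ) :=
  S.filter (fun p => p ∈ convexHull ℝ ((S.erase p : Finset (ℝ × ℝ)) : Set (ℝ × ℝ)))

theorem sep_of_ext {S : Finset (ℝ × ℝ)} {p : ℝ × ℝ} (hp : p ∈ ext S) :
    ∃ α β : ℝ, ∀ q ∈ S, q ≠ p → α * p.1 + β * p.2 < α * q.1 + β * q.2 := by
  classical
  obtain ⟨-, h1⟩ := Finset.mem_filter.1 hp
  obtain ⟨f, u, hfu, hf⟩ := geometric_hahn_banach_point_closed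
    (convex_convexHull ℝ ((S.erase p : Finset (ℝ × ℝ)) : Set (ℝ × ℝ)))
    ((Finset.finite_toSet (S.erase p)).isCompact_convexHull ℝ).isClosed (by convert h1)
  have key : ∀ q : ℝ × ℝ, f q = f (1, 0) * q.1 + f (0, 1) * q.2 := by
    intro q
    have e : q = q.1 • ((1 : ℝ), (0 : ℝ)) + q.2 • ((0 : ℝ), (1 : ℝ)) := by
      ext <;> simp
    conv_lhs => rw [e]
    rw [map_add, map_smul, map_smul, smul_eq_mul, smul_eq_mul]
    ring
  refine ⟨f (1, 0), f (0, 1), fun q hq hqp => ?_⟩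
  rw [← key, ← key]
  refine hfu.trans (hf q (subset_convexHull ℝ _ ?_))
  exact Finset.mem_coe.2 (Finset.mem_erase.2 ⟨hqp, hq⟩)

/-- a drawing can be moved to general position, keeping the separation of the extreme points -/
theorem exists_near {k : ℕ} {G : SimpleGraph (Fin k)} {φ : Fin k → ℝ × ℝ}
    (hφ : UPS.IsDrawing G φ) (X : Finset (Fin k)) (α β : Fin k → ℝ)
    (hs : ∀ i ∈ X, ∀ j, j ≠ i → α i * (φ i).1 + β i * (φ i).2 < α i * (φ j).1 + β i * (φ j).2) :
    ∃ ψ : Fin k → ℝ × ℝ, UPS.IsDrawing G ψ ∧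
      (∀ i j l, i ≠ j → i ≠ l → j ≠ l → ori (ψ i) (ψ j) (ψ l) ≠ 0) ∧
      ∀ i ∈ X, ∀ j, j ≠ i → α i * (ψ i).1 + β i * (ψ i).2 < α i * (ψ j).1 + β i * (ψ j).2 := by
  have hd : Dense (⋂ t : {t : Fin k × Fin k × Fin k // t.1 ≠ t.2.1 ∧ t.1 ≠ t.2.2 ∧ t.2.1 ≠ t.2.2},
      {φ : Fin k → ℝ × ℝ | ori (φ t.1.1) (φ t.1.2.1) (φ t.1.2.2) ≠ 0}) :=
    dense_iInter_of_isOpen (fun t => PerturbAux.isOpen_ori _ _ _)
      (fun t => PerturbAux.dense_ori _ _ _ t.2.1 t.2.2.1 t.2.2.2)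
  have ho : IsOpen {ψ : Fin k → ℝ × ℝ | ∀ i ∈ X, ∀ j, j ≠ i →
      α i * (ψ i).1 + β i * (ψ i).2 < α i * (ψ j).1 + β i * (ψ j).2} := by
    simp only [Set.ofPred_forall]
    refine isOpen_iInter_of_finite fun i => isOpen_iInter_of_finite fun _ =>
      isOpen_iInter_of_finite fun j => isOpen_iInter_of_finite fun _ => ?_
    exact isOpen_lt (by fun_prop) (by fun_prop)
  obtain ⟨ψ, ⟨hψ1, hψ3⟩, hψ2⟩ := hd.inter_open_nonempty _
    ((PerturbAux.isOpen_good G).inter ho) ⟨φ, PerturbAux.good_of_drawing hφ, hs⟩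
  refine ⟨ψ, PerturbAux.drawing_of_good hψ1, fun i j l hij hil hjl => ?_, hψ3⟩
  exact Set.mem_iInter.1 hψ2 ⟨(i, j, l), hij, hil, hjl⟩

/-- **At most three vertices at extreme points.** -/
theorem three_extreme {k : ℕ} (hk : 4 ≤ k) {G : SimpleGraph (Fin k)}
    (hG : 3 * k ≤ ecard G + 6) {φ : Fin k → ℝ × ℝ} (hφ : UPS.IsDrawing G φ)
    {S : Finset (ℝ × ℝ)} (hS : ∀ v, φ v ∈ S) (X : Finset (Fin k)) (hX : ∀ i ∈ X, φ i ∈ ext S) :
    X.card ≤ 3 := by
  classical
  have hsep : ∀ i : Fin k, ∃ α β : ℝ, i ∈ X → ∀ j, j ≠ i →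
      α * (φ i).1 + β * (φ i).2 < α * (φ j).1 + β * (φ j).2 := by
    intro i
    by_cases hi : i ∈ X
    · obtain ⟨α, β, h⟩ := sep_of_ext (hX i hi)
      exact ⟨α, β, fun _ j hj => h (φ j) (hS j) (hφ.1.ne hj)⟩
    · exact ⟨0, 0, fun h => absurd h hi⟩
  choose α β hs using hsep
  obtain ⟨ψ, hψ, hgp, hψs⟩ := exists_near hφ X α β hs
  set P : Finset F059.Pt := Finset.univ.image ψ with hP
  have hmP : ∀ i, ψ i ∈ P := fun i => Finset.mem_image_of_mem _ (Finset.mem_univ i)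
  have hPcard : P.card = k := by
    rw [hP, Finset.card_image_of_injective _ hψ.1, Finset.card_univ, Fintype.card_fin]
  have hgpP : GenPos P := by
    intro p hp q hq r hr h1 h2 h3
    obtain ⟨i, -, rfl⟩ := Finset.mem_image.1 hp
    obtain ⟨j, -, rfl⟩ := Finset.mem_image.1 hq
    obtain ⟨l, -, rfl⟩ := Finset.mem_image.1 hr
    exact hgp i j l (fun h => h1 (by rw [h])) (fun h => h2 (by rw [h])) (fun h => h3 (by rw [h]))
  set F0 : Finset (Sym2 F059.Pt) :=
    (Finset.univ.filter (fun e : Sym2 (Fin k) => e ∈ G.edgeSet)).image (Sym2.map ψ) with hF0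
  have hF0card : F0.card = ecard G := by
    rw [hF0, Finset.card_image_of_injective _ (Sym2.map.injective hψ.1)]
    unfold ecard
    congr
  have hmem0 : ∀ e ∈ F0, ∃ i j, G.Adj i j ∧ e = s(ψ i, ψ j) := by
    intro e he
    obtain ⟨f, hf, rfl⟩ := Finset.mem_image.1 he
    induction f using Sym2.ind with
    | _ i j =>
      exact ⟨i, j, (Finset.mem_filter.1 hf).2, rfl⟩
  have hsub : F0 ⊆ Seg P := by
    intro e he
    obtain ⟨i, j, hij, rfl⟩ := hmem0 e he
    exact mem_Seg.2 ⟨hmP i, hmP j, fun h => hij.ne (hψ.1 h)⟩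
  have hpl : Plane F0 := by
    intro e he f hf
    obtain ⟨i, j, hij, rfl⟩ := hmem0 e he
    obtain ⟨i', j', hij', rfl⟩ := hmem0 f hf
    rw [SCr_mk]
    exact not_Cr_of_drawing hψ hij hij'
  obtain ⟨A, hA, hFA⟩ := exists_tri hsub hpl
  have h1 := euler_upper hgpP hA (by omega)
  have h2 := Finset.card_le_card hFA
  rw [hPcard] at h1
  rw [hF0card] at h2
  have h3 : X.image ψ ⊆ HV P := by
    intro p hp
    obtain ⟨i, hi, rfl⟩ := Finset.mem_image.1 hp
    refine mem_HV_of_sep (hmP i) (by omega) (α i) (β i) ?_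
    intro q hq hqi
    obtain ⟨j, -, rfl⟩ := Finset.mem_image.1 hq
    exact hψs i hi j (fun h => hqi (by rw [h]))
  have h4 := Finset.card_le_card h3
  rw [Finset.card_image_of_injective _ hψ.1] at h4
  omega

theorem mem_ext_or {S : Finset (ℝ × ℝ)} {p : ℝ × ℝ} (hp : p ∈ S) : p ∈ ext S ∨ p ∈ inner S := by
  classical
  by_cases h : p ∈ convexHull ℝ ((S.erase p : Finset (ℝ × ℝ)) : Set (ℝ × ℝ))
  · exact Or.inr (Finset.mem_filter.2 ⟨hp, by convert h⟩)
  · exact Or.inl (Finset.mem_filter.2 ⟨hp, by convert h⟩)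

/-- **Universality is decided by the drawings with at most three vertices at extreme points.** -/
theorem universal_iff (S : Finset (ℝ × ℝ)) (n : ℕ) : UPS.IsUniversal S n ↔
    ∀ k ≤ n, ∀ G : SimpleGraph (Fin k), UPS.IsPlanar G →
      ∃ φ : Fin k → ℝ × ℝ, UPS.IsDrawing G φ ∧ (∀ v, φ v ∈ S) ∧
        ∀ X : Finset (Fin k), (∀ v ∈ X, φ v ∈ ext S) → X.card ≤ 3 := by
  constructor
  · intro h k hk G hG
    rcases Nat.lt_or_ge k 4 with hk4 | hk4
    · obtain ⟨φ, h1, h2⟩ := h k hk G hG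
      refine ⟨φ, h1, h2, fun X _ => ?_⟩
      have := Finset.card_le_univ X
      rw [Fintype.card_fin] at this
      omega
    · obtain ⟨G', hGG', hG', hc⟩ := exists_max hk4 hG
      obtain ⟨φ, h1, h2⟩ := h k hk G' hG'
      refine ⟨φ, ⟨h1.1, ?_, ?_⟩, h2, fun X hX => three_extreme hk4 hc h1 h2 X hX⟩
      · intro a b c d hab hcd
        exact h1.2.1 a b c d (hGG' hab) (hGG' hcd)
      · intro v a b hab
        exact h1.2.2 v a b (hGG' hab)
  · intro h k hk G hG
    obtain ⟨φ, h1, h2, -⟩ := h k hk G hG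
    exact ⟨φ, h1, h2⟩

theorem card_le_inner {S : Finset (ℝ × ℝ)} {n : ℕ} (h : UPS.IsUniversal S n) :
    n ≤ (inner S).card + 3 := by
  classical
  have hpl : UPS.IsPlanar (⊥ : SimpleGraph (Fin n)) := by
    refine ⟨fun i => ((i : ℕ), 0), ?_, ?_, ?_⟩
    · intro i j hij
      have h1 := congrArg Prod.fst hij
      simp only at h1
      exact Fin.ext (by exact_mod_cast h1)
    · intro a b c d hab
      exact absurd hab (by simp)
    · intro v a b hab
      exact absurd hab (by simp)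
  obtain ⟨φ, h1, h2, h3⟩ := (universal_iff S n).1 h n le_rfl ⊥ hpl
  have h4 := h3 (Finset.univ.filter (fun v => φ v ∈ ext S)) (fun v hv => (Finset.mem_filter.1 hv).2)
  have h5 : (Finset.univ.filter (fun v => ¬ φ v ∈ ext S)).card ≤ (inner S).card := by
    refine Finset.card_le_card_of_injOn φ ?_ h1.1.injOn
    intro v hv
    have hv' := (Finset.mem_filter.1 (Finset.mem_coe.1 hv)).2
    exact Finset.mem_coe.2 ((mem_ext_or (h2 v)).resolve_left hv')
  have h6 := Finset.card_filter_add_card_filter_not (s := (Finset.univ : Finset (Fin n)))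
    (fun v => φ v ∈ ext S)
  rw [Finset.card_univ, Fintype.card_fin] at h6
  omega

end P2020ba
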