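import Pool.Agent.Lib.P2020ba.Three

/-!
# Exchanging three extreme points for three equivalent ones (MP_2020ba_lc)
-/

set_option autoImplicit false

namespace P2020ba

open UPN F059

/-! ### Points on a line -/

theorem norm_pos_of_ne {p q : ℝ × ℝ} (hpq : p ≠ q) : 0 < (q.1 - p.1) ^ 2 + (q.2 - p.2) ^ 2 := by
  by_contra hcon
  apply hpq
  have e1 : (q.1 - p.1) ^ 2 = 0 := by nlinarith [sq_nonneg (q.1 - p.1), sq_nonneg (q.2 - p.2)]
  have e2 : (q.2 - p.2) ^ 2 = 0 := by nlinarith [sq_nonneg (q.1 - p.1), sq_nonneg (q.2 - p.2)]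
  have e3 : q.1 - p.1 = 0 := by simpa using e1
  have e4 : q.2 - p.2 = 0 := by simpa using e2
  exact Prod.ext (by linarith) (by linarith)

theorem param {p q r : ℝ × ℝ} (hpq : p ≠ q) (h : ori p q r = 0) :
    ∃ ρ : ℝ, r.1 = p.1 + ρ * (q.1 - p.1) ∧ r.2 = p.2 + ρ * (q.2 - p.2) := by
  have hN := norm_pos_of_ne hpq
  refine ⟨((r.1 - p.1) * (q.1 - p.1) + (r.2 - p.2) * (q.2 - p.2)) /
    ((q.1 - p.1) ^ 2 + (q.2 - p.2) ^ 2), ?_, ?_⟩
  · unfold ori at h
    rw [div_mul_eq_mul_div, ← sub_eq_iff_eq_add', eq_div_iff hN.ne']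
    linear_combination (-(q.2 - p.2)) * h
  · unfold ori at h
    rw [div_mul_eq_mul_div, ← sub_eq_iff_eq_add', eq_div_iff hN.ne']
    linear_combination (q.1 - p.1) * h

/-- a point with a parameter in `[0, 1]` -/
theorem mem_of_param {p q r : ℝ × ℝ} {ρ : ℝ} (h1 : r.1 = p.1 + ρ * (q.1 - p.1))
    (h2 : r.2 = p.2 + ρ * (q.2 - p.2)) (h0 : 0 ≤ ρ) (h3 : ρ ≤ 1) : r ∈ segment ℝ p q := by
  refine ⟨1 - ρ, ρ, by linarith, h0, by ring, ?_⟩
  apply Prod.ext
  · simp only [Prod.fst_add, Prod.smul_fst, smul_eq_mul]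
    rw [h1]; ring
  · simp only [Prod.snd_add, Prod.smul_snd, smul_eq_mul]
    rw [h2]; ring

/-- the scalar product of `a - y` and `z - y` -/
def dot (a y z : ℝ × ℝ) : ℝ := (a.1 - y.1) * (z.1 - y.1) + (a.2 - y.2) * (z.2 - y.2)

theorem mem_seg_iff {a y z : ℝ × ℝ} (hne : a ≠ z) :
    y ∈ segment ℝ a z ↔ ori a y z = 0 ∧ dot a y z ≤ 0 := by
  constructor
  · rintro ⟨s, t, hs, ht, hst, rfl⟩
    have : s = 1 - t := by linarith
    subst this
    constructor
    · unfold ori
      simp only [Prod.fst_add, Prod.snd_add, Prod.smul_fst, Prod.smul_snd, smul_eq_mul]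
      ring
    · unfold dot
      simp only [Prod.fst_add, Prod.snd_add, Prod.smul_fst, Prod.smul_snd, smul_eq_mul]
      have e : (a.1 - ((1 - t) * a.1 + t * z.1)) * (z.1 - ((1 - t) * a.1 + t * z.1)) +
          (a.2 - ((1 - t) * a.2 + t * z.2)) * (z.2 - ((1 - t) * a.2 + t * z.2)) =
          -(t * (1 - t) * ((z.1 - a.1) ^ 2 + (z.2 - a.2) ^ 2)) := by ring
      rw [e]
      have := mul_nonneg (mul_nonneg ht hs) (add_nonneg (sq_nonneg (z.1 - a.1))
        (sq_nonneg (z.2 - a.2)))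
      linarith
  · rintro ⟨h1, h2⟩
    have hN := norm_pos_of_ne hne
    have h3 : ori a z y = 0 := by
      rw [ori_swap', h1, neg_zero]
    obtain ⟨ρ, e1, e2⟩ := param hne h3
    have e3 : dot a y z = -(ρ * (1 - ρ) * ((z.1 - a.1) ^ 2 + (z.2 - a.2) ^ 2)) := by
      unfold dot
      rw [e1, e2]
      ring
    have e4 : 0 ≤ ρ * (1 - ρ) := by
      by_contra hcon
      push Not at hcon
      have := mul_neg_of_neg_of_pos hcon hN
      linarith
    refine mem_of_param e1 e2 ?_ ?_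
    · by_contra hcon
      push Not at hcon
      nlinarith
    · by_contra hcon
      push Not at hcon
      nlinarith

/-- two meeting segments -/
theorem meet_cases {p q r s x : ℝ × ℝ} (hpq : p ≠ q) (hrs : r ≠ s) (h1 : x ∈ segment ℝ p q)
    (h2 : x ∈ segment ℝ r s) : Cr p q r s ∨ r ∈ segment ℝ p q ∨ s ∈ segment ℝ p q ∨
      p ∈ segment ℝ r s ∨ q ∈ segment ℝ r s := by
  -- one end on the line of the other segment
  have key : ∀ p q r s : ℝ × ℝ, p ≠ q → x ∈ segment ℝ p q → x ∈ segment ℝ r s →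
      ori p q r = 0 → r ∈ segment ℝ p q ∨ s ∈ segment ℝ p q ∨ p ∈ segment ℝ r s ∨
        q ∈ segment ℝ r s := by
    intro p q r s hpq h1 h2 h0
    obtain ⟨a, t, ha, ht, hat, hx⟩ := h2
    have ha' : a = 1 - t := by linarith
    subst ha'
    have hx1 : x.1 = (1 - t) * r.1 + t * s.1 := by
      rw [← hx]; simp
    have hx2 : x.2 = (1 - t) * r.2 + t * s.2 := by
      rw [← hx]; simp
    have hx0 : ori p q x = 0 := ori_zero_of_mem h1
    have e : t * ori p q s = 0 := by
      have e1 : ori p q x = (1 - t) * ori p q r + t * ori p q s := by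
        unfold ori
        rw [hx1, hx2]
        ring
      rw [h0, mul_zero, zero_add, hx0] at e1
      exact e1.symm
    rcases mul_eq_zero.1 e with h3 | h3
    · left
      subst h3
      have : x = r := Prod.ext (by rw [hx1]; ring) (by rw [hx2]; ring)
      rw [← this]; exact h1
    · -- all on one line
      obtain ⟨ρ, r1, r2⟩ := param hpq h0
      obtain ⟨σ, s1, s2⟩ := param hpq h3
      obtain ⟨b, u, hb, hu, hbu, hxu⟩ := h1
      have hb' : b = 1 - u := by linarith
      subst hb'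
      have xu1 : x.1 = p.1 + u * (q.1 - p.1) := by
        rw [← hxu]; simp; ring
      have xu2 : x.2 = p.2 + u * (q.2 - p.2) := by
        rw [← hxu]; simp; ring
      have hN := norm_pos_of_ne hpq
      have hur : u = (1 - t) * ρ + t * σ := by
        have f1 : (u - ((1 - t) * ρ + t * σ)) * (q.1 - p.1) = 0 := by
          have : x.1 = p.1 + ((1 - t) * ρ + t * σ) * (q.1 - p.1) := by
            rw [hx1, r1, s1]; ring
          linear_combination this - xu1
        have f2 : (u - ((1 - t) * ρ + t * σ)) * (q.2 - p.2) = 0 := by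
          have : x.2 = p.2 + ((1 - t) * ρ + t * σ) * (q.2 - p.2) := by
            rw [hx2, r2, s2]; ring
          linear_combination this - xu2
        have f3 : (u - ((1 - t) * ρ + t * σ)) * ((q.1 - p.1) ^ 2 + (q.2 - p.2) ^ 2) = 0 := by
          linear_combination (q.1 - p.1) * f1 + (q.2 - p.2) * f2
        have := (mul_eq_zero.1 f3).resolve_right hN.ne'
        linarith
      by_cases hr : 0 ≤ ρ ∧ ρ ≤ 1
      · exact Or.inl (mem_of_param r1 r2 hr.1 hr.2)
      by_cases hs : 0 ≤ σ ∧ σ ≤ 1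
      · exact Or.inr (Or.inl (mem_of_param s1 s2 hs.1 hs.2))
      right; right; left
      -- `0` is between `ρ` and `σ`
      have hne : ρ ≠ σ := by
        rintro rfl
        apply hr
        have : u = ρ := by rw [hur]; ring
        rw [← this]
        exact ⟨hu, by linarith⟩
      have hbt : (ρ < 0 ∧ 0 < σ) ∨ (σ < 0 ∧ 0 < ρ) := by
        have hu1 : u ≤ 1 := by linarith
        have ht1 : 0 ≤ 1 - t := by linarith
        rcases lt_or_ge ρ 0 with h5 | h5
        · left
          refine ⟨h5, ?_⟩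
          by_contra hcon
          push Not at hcon
          rcases hcon.lt_or_eq with h6 | h6
          · have f1 : (1 - t) * ρ ≤ 0 := mul_nonpos_of_nonneg_of_nonpos ht1 h5.le
            have f2 : t * σ ≤ 0 := mul_nonpos_of_nonneg_of_nonpos ht hcon
            have f3 : (1 - t) * ρ = 0 := by linarith
            have f4 : t * σ = 0 := by linarith
            have f5 := (mul_eq_zero.1 f3).resolve_right h5.ne
            have f6 := (mul_eq_zero.1 f4).resolve_right h6.ne
            linarith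
          · exact hs ⟨h6.symm.le.trans' le_rfl |>.trans (le_of_eq rfl) |> fun _ => by rw [h6], by
              rw [h6]; norm_num⟩
        · right
          have hρ1 : 1 < ρ := by
            by_contra hcon
            exact hr ⟨h5, not_lt.1 hcon⟩
          refine ⟨?_, by linarith⟩
          by_contra hcon
          push Not at hcon
          have hσ1 : 1 < σ := by
            by_contra hcon2
            exact hs ⟨hcon, not_lt.1 hcon2⟩
          have f1 : (1 - t) * 1 ≤ (1 - t) * ρ := mul_le_mul_of_nonneg_left hρ1.le ht1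
          have f2 : t * 1 ≤ t * σ := mul_le_mul_of_nonneg_left hσ1.le ht
          have f3 : (1 - t) * (ρ - 1) = 0 := by
            have g1 := mul_nonneg ht1 (sub_nonneg.2 hρ1.le)
            have g2 := mul_nonneg ht (sub_nonneg.2 hσ1.le)
            nlinarith
          have f4 : t * (σ - 1) = 0 := by
            have g1 := mul_nonneg ht1 (sub_nonneg.2 hρ1.le)
            have g2 := mul_nonneg ht (sub_nonneg.2 hσ1.le)
            nlinarith
          have f5 := (mul_eq_zero.1 f3).resolve_right (by linarith)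
          have f6 := (mul_eq_zero.1 f4).resolve_right (by linarith)
          linarith
      have hden : σ - ρ ≠ 0 := sub_ne_zero.2 (Ne.symm hne)
      refine mem_of_param (ρ := -ρ / (σ - ρ)) ?_ ?_ ?_ ?_
      · rw [r1, s1]
        field_simp
        ring
      · rw [r2, s2]
        field_simp
        ring
      · rcases hbt with ⟨h5, h6⟩ | ⟨h5, h6⟩
        · exact div_nonneg (by linarith) (by linarith)
        · exact div_nonneg_of_nonpos (by linarith) (by linarith)
      · rcases hbt with ⟨h5, h6⟩ | ⟨h5, h6⟩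
        · rw [div_le_one (by linarith)]
          linarith
        · rw [div_le_one_of_neg (by linarith)]
          linarith
  by_cases n1 : ori p q r = 0
  · exact Or.inr (key p q r s hpq h1 h2 n1)
  by_cases n2 : ori p q s = 0
  · have := key p q s r hpq h1 (by rw [segment_symm]; exact h2) n2
    rw [segment_symm ℝ s r] at this
    tauto
  by_cases n3 : ori r s p = 0
  · have := key r s p q hrs h2 h1 n3
    tauto
  by_cases n4 : ori r s q = 0
  · have := key r s q p hrs h2 (by rw [segment_symm]; exact h1) n4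
    rw [segment_symm ℝ q p] at this
    tauto
  exact Or.inl (cr_of_meet h1 h2 n1 n2 n3 n4)

/-! ### Extreme points -/

theorem ext_sub (S : Finset (ℝ × ℝ)) : ext S ⊆ S := by
  classical
  intro p hp
  exact (Finset.mem_filter.1 hp).1

theorem inner_sub (S : Finset (ℝ × ℝ)) : inner S ⊆ S := by
  classical
  intro p hp
  exact (Finset.mem_filter.1 hp).1

theorem ext_not_inner {S : Finset (ℝ × ℝ)} {p : ℝ × ℝ} (h : p ∈ ext S) : p ∉ inner S := by
  classical
  intro h'
  exact (Finset.mem_filter.1 h).2 (Finset.mem_filter.1 h').2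

/-- an extreme point is not between two other points -/
theorem ext_not_between {S : Finset (ℝ × ℝ)} {p q r : ℝ × ℝ} (hp : p ∈ ext S) (hq : q ∈ S)
    (hr : r ∈ S) (hqp : q ≠ p) (hrp : r ≠ p) : p ∉ segment ℝ q r := by
  rintro ⟨a, b, ha, hb, hab, h⟩
  obtain ⟨α, β, hs⟩ := sep_of_ext hp
  have h1 := hs q hq hqp
  have h2 := hs r hr hrp
  have e1 : p.1 = a * q.1 + b * r.1 := by rw [← h]; simp
  have e2 : p.2 = a * q.2 + b * r.2 := by rw [← h]; simp
  have e3 : α * p.1 + β * p.2 = a * (α * q.1 + β * q.2) + b * (α * r.1 + β * r.2) := by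
    rw [e1, e2]; ring
  have e4 : α * p.1 + β * p.2 = a * (α * p.1 + β * p.2) + b * (α * p.1 + β * p.2) := by
    rw [← add_mul, hab, one_mul]
  rcases ha.lt_or_eq with h3 | h3
  · have f1 := mul_lt_mul_of_pos_left h1 h3
    have f2 := mul_le_mul_of_nonneg_left h2.le hb
    linarith
  · have hb1 : b = 1 := by linarith
    subst hb1
    rw [← h3] at e3
    linarith

/-- three collinear points: one is between the others -/
theorem between_of_collinear {p q r : ℝ × ℝ} (h : ori p q r = 0) :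
    p ∈ segment ℝ q r ∨ q ∈ segment ℝ p r ∨ r ∈ segment ℝ p q := by
  by_cases hpq : p = q
  · subst hpq
    exact Or.inl (left_mem_segment ℝ _ _)
  · obtain ⟨ρ, r1, r2⟩ := param hpq h
    rcases lt_or_ge ρ 0 with h1 | h1
    · left
      have hd : 0 < 1 - ρ := by linarith
      refine mem_of_param (ρ := 1 / (1 - ρ)) ?_ ?_ (by positivity) ?_
      · rw [r1]; field_simp; ring
      · rw [r2]; field_simp; ring
      · rw [div_le_one hd]; linarith
    · rcases le_or_gt ρ 1 with h2 | h2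
      · exact Or.inr (Or.inr (mem_of_param r1 r2 h1 h2))
      · right; left
        have hd : 0 < ρ := by linarith
        refine mem_of_param (ρ := 1 / ρ) ?_ ?_ (by positivity) ?_
        · rw [r1]; field_simp; ring
        · rw [r2]; field_simp; ring
        · rw [div_le_one hd]; linarith

/-! ### Equivalent triples -/

/-- `t` and `t'` have the same position with respect to the points in `I` -/
structure Eqv (I : Finset (ℝ × ℝ)) (t t' : Fin 3 → ℝ × ℝ) : Prop where
  one : ∀ i, ∀ y ∈ I, ∀ z ∈ I, (0 < ori (t i) y z ↔ 0 < ori (t' i) y z)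
  dt : ∀ i, ∀ y ∈ I, ∀ z ∈ I, (0 < dot (t i) y z ↔ 0 < dot (t' i) y z)
  two : ∀ i j, i ≠ j → ∀ y ∈ I, (0 < ori (t i) (t j) y ↔ 0 < ori (t' i) (t' j) y)
  three : 0 < ori (t 0) (t 1) (t 2) ↔ 0 < ori (t' 0) (t' 1) (t' 2)

/-- the correspondence of the points -/
def Cor (I : Finset (ℝ × ℝ)) (t t' : Fin 3 → ℝ × ℝ) (x x' : ℝ × ℝ) : Prop :=
  (x ∈ I ∧ x' = x) ∨ ∃ i, x = t i ∧ x' = t' i

/-- an injective triple of extreme points -/
structure ETr (S : Finset (ℝ × ℝ)) (t : Fin 3 → ℝ × ℝ) : Prop where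
  inj : Function.Injective t
  ext : ∀ i, t i ∈ ext S

theorem ETr.ne0 {S : Finset (ℝ × ℝ)} {t : Fin 3 → ℝ × ℝ} (h : ETr S t) :
    ori (t 0) (t 1) (t 2) ≠ 0 := by
  intro h0
  have d01 : (0 : Fin 3) ≠ 1 := by decide
  have d02 : (0 : Fin 3) ≠ 2 := by decide
  have d12 : (1 : Fin 3) ≠ 2 := by decide
  have hS : ∀ i, t i ∈ S := fun i => ext_sub S (h.ext i)
  rcases between_of_collinear h0 with h1 | h1 | h1
  · exact ext_not_between (h.ext 0) (hS 1) (hS 2) (h.inj.ne d01.symm) (h.inj.ne d02.symm) h1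
  · exact ext_not_between (h.ext 1) (hS 0) (hS 2) (h.inj.ne d01) (h.inj.ne d12.symm) h1
  · exact ext_not_between (h.ext 2) (hS 0) (hS 1) (h.inj.ne d02) (h.inj.ne d12) h1

/-- the positive orientations agree -/
theorem three_pos {S : Finset (ℝ × ℝ)} {I : Finset (ℝ × ℝ)} {t t' : Fin 3 → ℝ × ℝ} (h : ETr S t) (h' : ETr S t')
    (he : Eqv I t t') : ∀ i j l : Fin 3, (0 < ori (t i) (t j) (t l) ↔
      0 < ori (t' i) (t' j) (t' l)) := by
  have h3 := he.three
  have n := h.ne0
  have n' := h'.ne0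
  have a1 : ∀ s : Fin 3 → ℝ × ℝ, ori (s 1) (s 2) (s 0) = ori (s 0) (s 1) (s 2) := fun s =>
    ori_cyc _ _ _
  have a2 : ∀ s : Fin 3 → ℝ × ℝ, ori (s 2) (s 0) (s 1) = ori (s 0) (s 1) (s 2) := fun s => by
    unfold ori; ring
  have a3 : ∀ s : Fin 3 → ℝ × ℝ, ori (s 0) (s 2) (s 1) = - ori (s 0) (s 1) (s 2) := fun s => by
    unfold ori; ring
  have a4 : ∀ s : Fin 3 → ℝ × ℝ, ori (s 1) (s 0) (s 2) = - ori (s 0) (s 1) (s 2) := fun s => by
    unfold ori; ring
  have a5 : ∀ s : Fin 3 → ℝ × ℝ, ori (s 2) (s 1) (s 0) = - ori (s 0) (s 1) (s 2) := fun s => by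
    unfold ori; ring
  have hneg : (0 < - ori (t 0) (t 1) (t 2)) ↔ (0 < - ori (t' 0) (t' 1) (t' 2)) := by
    constructor
    · intro h1
      have h2 : ¬ 0 < ori (t 0) (t 1) (t 2) := by linarith
      rw [h3] at h2
      have := lt_of_le_of_ne (not_lt.1 h2) n'
      linarith
    · intro h1
      have h2 : ¬ 0 < ori (t' 0) (t' 1) (t' 2) := by linarith
      rw [← h3] at h2
      have := lt_of_le_of_ne (not_lt.1 h2) n
      linarith
  intro i j l
  by_cases hij : i = j
  · subst hij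
    rw [ori_self_same, ori_self_same]
  by_cases hil : i = l
  · subst hil
    rw [ori_self_left, ori_self_left]
  by_cases hjl : j = l
  · subst hjl
    rw [ori_self_right, ori_self_right]
  fin_cases i <;> fin_cases j <;> fin_cases l <;> first
    | exact absurd rfl hij
    | exact absurd rfl hil
    | exact absurd rfl hjl
    | exact h3
    | (show (0 < ori (t 1) (t 2) (t 0) ↔ 0 < ori (t' 1) (t' 2) (t' 0)); rw [a1, a1]; exact h3)
    | (show (0 < ori (t 2) (t 0) (t 1) ↔ 0 < ori (t' 2) (t' 0) (t' 1)); rw [a2, a2]; exact h3)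
    | (show (0 < ori (t 0) (t 2) (t 1) ↔ 0 < ori (t' 0) (t' 2) (t' 1)); rw [a3, a3]; exact hneg)
    | (show (0 < ori (t 1) (t 0) (t 2) ↔ 0 < ori (t' 1) (t' 0) (t' 2)); rw [a4, a4]; exact hneg)
    | (show (0 < ori (t 2) (t 1) (t 0) ↔ 0 < ori (t' 2) (t' 1) (t' 0)); rw [a5, a5]; exact hneg)

theorem two_pos {S : Finset (ℝ × ℝ)} {I : Finset (ℝ × ℝ)} {t t' : Fin 3 → ℝ × ℝ}
    (he : Eqv I t t') (i j : Fin 3) {y : ℝ × ℝ} (hy : y ∈ I) :
    (0 < ori (t i) (t j) y ↔ 0 < ori (t' i) (t' j) y) := by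
  by_cases hij : i = j
  · subst hij
    rw [ori_self_same, ori_self_same]
  · exact he.two i j hij y hy

/-- all orientations agree -/
theorem cor_pos {S : Finset (ℝ × ℝ)} {I : Finset (ℝ × ℝ)} {t t' : Fin 3 → ℝ × ℝ} (h : ETr S t) (h' : ETr S t')
    (he : Eqv I t t') {x y z x' y' z' : ℝ × ℝ} (hx : Cor I t t' x x') (hy : Cor I t t' y y')
    (hz : Cor I t t' z z') : (0 < ori x y z ↔ 0 < ori x' y' z') := by
  have rot : ∀ p q r : ℝ × ℝ, ori p q r = ori r p q := fun p q r => by unfold ori; ring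
  rcases hx with ⟨hx, rfl⟩ | ⟨i, rfl, rfl⟩ <;> rcases hy with ⟨hy, rfl⟩ | ⟨j, rfl, rfl⟩ <;>
    rcases hz with ⟨hz, rfl⟩ | ⟨l, rfl, rfl⟩
  · exact Iff.rfl
  · rw [rot, rot _ _ (t' l)]
    exact he.one l _ hx _ hy
  · rw [← ori_cyc x' (t j), ← ori_cyc x' (t' j)]
    exact he.one j _ hz _ hx
  · rw [← ori_cyc x' (t j), ← ori_cyc x' (t' j)]
    exact two_pos (S := S) he j l hx
  · exact he.one i _ hy _ hz
  · rw [rot, rot _ _ (t' l)]
    exact two_pos (S := S) he l i hy
  · exact two_pos (S := S) he i j hz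
  · exact three_pos h h' he i j l

theorem cor_neg {S : Finset (ℝ × ℝ)} {I : Finset (ℝ × ℝ)} {t t' : Fin 3 → ℝ × ℝ} (h : ETr S t) (h' : ETr S t')
    (he : Eqv I t t') {x y z x' y' z' : ℝ × ℝ} (hx : Cor I t t' x x') (hy : Cor I t t' y y')
    (hz : Cor I t t' z z') : (ori x y z < 0 ↔ ori x' y' z' < 0) := by
  have h1 := cor_pos h h' he hy hx hz
  have e1 : ori y x z = - ori x y z := F059.ori_swap x y z
  have e2 : ori y' x' z' = - ori x' y' z' := F059.ori_swap x' y' z'
  rw [e1, e2] at h1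
  constructor
  · intro h2
    have := h1.1 (by linarith)
    linarith
  · intro h2
    have := h1.2 (by linarith)
    linarith

theorem cor_zero {S : Finset (ℝ × ℝ)} {I : Finset (ℝ × ℝ)} {t t' : Fin 3 → ℝ × ℝ} (h : ETr S t) (h' : ETr S t')
    (he : Eqv I t t') {x y z x' y' z' : ℝ × ℝ} (hx : Cor I t t' x x') (hy : Cor I t t' y y')
    (hz : Cor I t t' z z') (h0 : ori x' y' z' = 0) : ori x y z = 0 := by
  have h1 := cor_pos h h' he hx hy hz
  have h2 := cor_neg h h' he hx hy hz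
  rcases lt_trichotomy (ori x y z) 0 with h3 | h3 | h3
  · have := h2.1 h3
    linarith
  · exact h3
  · have := h1.1 h3
    linarith

theorem cor_cr {S : Finset (ℝ × ℝ)} {I : Finset (ℝ × ℝ)} {t t' : Fin 3 → ℝ × ℝ} (h : ETr S t) (h' : ETr S t')
    (he : Eqv I t t') {x y z w x' y' z' w' : ℝ × ℝ} (hx : Cor I t t' x x')
    (hy : Cor I t t' y y') (hz : Cor I t t' z z') (hw : Cor I t t' w w')
    (hc : Cr x' y' z' w') : Cr x y z w := by
  have key : ∀ x y z w x' y' z' w' : ℝ × ℝ, Cor I t t' x x' → Cor I t t' y y' →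
      Cor I t t' z z' → Cor I t t' w w' → ori x' y' z' * ori x' y' w' < 0 →
      ori x y z * ori x y w < 0 := by
    intro x y z w x' y' z' w' hx hy hz hw hc
    rcases mul_neg_iff.1 hc with ⟨h1, h2⟩ | ⟨h1, h2⟩
    · exact mul_neg_of_pos_of_neg ((cor_pos h h' he hx hy hz).2 h1)
        ((cor_neg h h' he hx hy hw).2 h2)
    · exact mul_neg_of_neg_of_pos ((cor_neg h h' he hx hy hz).2 h1)
        ((cor_pos h h' he hx hy hw).2 h2)
  exact ⟨key _ _ _ _ _ _ _ _ hx hy hz hw hc.1, key _ _ _ _ _ _ _ _ hz hw hx hy hc.2⟩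

theorem Cor.mem {S : Finset (ℝ × ℝ)} {t t' : Fin 3 → ℝ × ℝ} (h : ETr S t)
    {x x' : ℝ × ℝ} (hx : Cor (inner S) t t' x x') : x ∈ S := by
  rcases hx with ⟨hx, -⟩ | ⟨i, rfl, -⟩
  · exact inner_sub S hx
  · exact ext_sub S (h.ext i)

theorem Cor.mem' {S : Finset (ℝ × ℝ)} {t t' : Fin 3 → ℝ × ℝ} (h : ETr S t')
    {x x' : ℝ × ℝ} (hx : Cor (inner S) t t' x x') : x' ∈ S := by
  rcases hx with ⟨hx, rfl⟩ | ⟨i, -, rfl⟩
  · exact inner_sub S hx
  · exact ext_sub S (h.ext i)

/-- the correspondence is a bijection -/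
theorem Cor.eq {S : Finset (ℝ × ℝ)} {t t' : Fin 3 → ℝ × ℝ} (h : ETr S t) (h' : ETr S t')
    {x x' y y' : ℝ × ℝ} (hx : Cor (inner S) t t' x x') (hy : Cor (inner S) t t' y y') :
    x' = y' ↔ x = y := by
  rcases hx with ⟨hx, rfl⟩ | ⟨i, rfl, rfl⟩ <;> rcases hy with ⟨hy, rfl⟩ | ⟨j, rfl, rfl⟩
  · exact Iff.rfl
  · constructor
    · rintro rfl
      exact absurd hx (ext_not_inner (h'.ext j))
    · rintro rfl
      exact absurd hx (ext_not_inner (h.ext j))
  · constructor
    · rintro h1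
      exact absurd (h1 ▸ hy) (ext_not_inner (h'.ext i))
    · rintro h1
      exact absurd (h1 ▸ hy) (ext_not_inner (h.ext i))
  · rw [h.inj.eq_iff, h'.inj.eq_iff]

/-- betweenness -/
theorem cor_between {S : Finset (ℝ × ℝ)} {t t' : Fin 3 → ℝ × ℝ} (h : ETr S t) (h' : ETr S t')
    (he : Eqv (inner S) t t') {x y z x' y' z' : ℝ × ℝ} (hx : Cor (inner S) t t' x x')
    (hy : Cor (inner S) t t' y y') (hz : Cor (inner S) t t' z z') (hxy : x' ≠ y')
    (hzy : z' ≠ y') (hxz : x' ≠ z') (hb : y' ∈ segment ℝ x' z') : y ∈ segment ℝ x z := by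
  have hyI : y ∈ inner S ∧ y' = y := by
    rcases hy with hy | ⟨i, rfl, rfl⟩
    · exact hy
    · exact absurd hb (ext_not_between (h'.ext i) (hx.mem' h') (hz.mem' h') hxy hzy)
  obtain ⟨hyI, rfl⟩ := hyI
  have hxz2 : x ≠ z := fun h1 => hxz ((Cor.eq h h' hx hz).2 h1)
  have hxy2 : x ≠ y' := fun h1 => hxy ((Cor.eq h h' hx hy).2 h1)
  have hzy2 : z ≠ y' := fun h1 => hzy ((Cor.eq h h' hz hy).2 h1)
  have h0 : ori x y' z = 0 := cor_zero h h' he hx hy hz ((mem_seg_iff hxz).1 hb).1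
  have hdot := ((mem_seg_iff hxz).1 hb).2
  have dsym : ∀ p q r : ℝ × ℝ, dot p q r = dot r q p := fun p q r => by unfold dot; ring
  rcases hx with ⟨hx, rfl⟩ | ⟨i, rfl, rfl⟩ <;> rcases hz with ⟨hz, rfl⟩ | ⟨l, rfl, rfl⟩
  · exact hb
  · rw [mem_seg_iff hxz2]
    refine ⟨h0, ?_⟩
    rw [dsym] at hdot ⊢
    by_contra hcon
    exact absurd ((he.dt l _ hyI _ hx).1 (not_le.1 hcon)) (not_lt.2 hdot)
  · rw [mem_seg_iff hxz2]
    refine ⟨h0, ?_⟩
    by_contra hcon
    exact absurd ((he.dt i _ hyI _ hz).1 (not_le.1 hcon)) (not_lt.2 hdot)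
  · rcases between_of_collinear h0 with h1 | h1 | h1
    · exact absurd h1 (ext_not_between (h.ext i) (inner_sub S hyI) (ext_sub S (h.ext l))
        hxy2.symm hxz2.symm)
    · exact h1
    · exact absurd h1 (ext_not_between (h.ext l) (ext_sub S (h.ext i)) (inner_sub S hyI)
        hxz2 hzy2.symm)

/-- **Transport of a drawing.** -/
theorem transport {S : Finset (ℝ × ℝ)} {t t' : Fin 3 → ℝ × ℝ} (h : ETr S t) (h' : ETr S t')
    (he : Eqv (inner S) t t') {k : ℕ} {G : SimpleGraph (Fin k)} {φ φ' : Fin k → ℝ × ℝ}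
    (hφ : UPS.IsDrawing G φ) (hc : ∀ v, Cor (inner S) t t' (φ v) (φ' v)) :
    UPS.IsDrawing G φ' := by
  have hinj : Function.Injective φ' := by
    intro v w hvw
    exact hφ.1 ((Cor.eq h h' (hc v) (hc w)).1 hvw)
  have hgood := PerturbAux.good_of_drawing hφ
  refine PerturbAux.drawing_of_good ⟨fun i j hij h => hij (hinj h), ?_⟩
  have hbet : ∀ a b c, G.Adj a b → c ≠ a → c ≠ b → φ' c ∉ segment ℝ (φ' a) (φ' b) := by
    intro a b c hab hca hcb h1
    have h2 := cor_between h h' he (hc a) (hc c) (hc b) (hinj.ne hca.symm) (hinj.ne hcb.symm)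
      (hinj.ne hab.ne) h1
    rcases hφ.2.2 c a b hab h2 with h3 | h3
    · exact hca h3
    · exact hcb h3
  rintro a b c d hab hcd hca hcb hda hdb ⟨x, h1, h2⟩
  rcases hcd with rfl | hcd
  · rw [segment_same, Set.mem_singleton_iff] at h2
    subst h2
    exact hbet a b c hab hca hcb h1
  · rcases meet_cases (hinj.ne hab.ne) (hinj.ne hcd.ne) h1 h2 with h3 | h3 | h3 | h3 | h3
    · exact not_Cr_of_drawing hφ hab hcd (cor_cr h h' he (hc a) (hc b) (hc c) (hc d) h3)
    · exact hbet a b c hab hca hcb h3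
    · exact hbet a b d hab hda hdb h3
    · exact hbet c d a hcd hca.symm hda.symm h3
    · exact hbet c d b hcd hcb.symm hdb.symm h3

end P2020ba
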